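import Pool.Agent.Run7.h41.NF.Asm
import Pool.Agent.Run7.h300.NF.SH
import Pool.Agent.Run7.h842.NF.CYC
import Pool.Agent.Run7.h842.NF.FCB
import Pool.Agent.Run7.h842.NF.PCON
import Pool.Agent.Run7.h590.NF.NW
import Pool.Agent.Run7.h590.NF.AXI
import Pool.Agent.Run7.h847.NF.AX1
import Pool.Agent.Run7.h847.NF.CEN
import Pool.Agent.Run7.h847.NF.EVB
import Pool.Agent.Run7.h847.NF.HYP
import Pool.Agent.Run7.h136.NF.LFA
import Pool.Agent.Run7.h136.NF.LEF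
import Pool.Agent.Run7.h136.NF.LIP
import Pool.Agent.Run7.h136.NF.SHI
import Pool.Agent.Run7.h136.NF.LEV
import Pool.Agent.Run7.h896.NF.POS
import Pool.Agent.Run7.h896.NF.KAP
import Pool.Agent.Run7.h858.NF.PZR
import Pool.Agent.Run7.h11.NF.STA
import Pool.Agent.Run7.h11.NF.GRC

set_option autoImplicit false

/-!
# Project NF: the pieces put together
-/

namespace Run7.h41.NF

theorem p_SH : S_SH := Run7.h300.NF.t_SH
theorem p_CON : S_CON := Run7.h842.NF.t_CON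
theorem p_FCB : S_FCB := Run7.h842.NF.t_FCB p_SH
theorem p_EVB : S_EVB := Run7.h847.NF.t_EVB
theorem p_NES : S_NES := Run7.h590.NF.t_NES p_SH p_CON
theorem p_WAL : S_WAL := Run7.h590.NF.t_WAL p_SH p_FCB p_NES
theorem p_AXI : S_AXI := Run7.h590.NF.AX.t_AXI p_SH p_EVB
theorem p_AX1 : S_AX1 := Run7.h847.NF.t_AX1 p_SH p_AXI
theorem p_HYP : S_HYP := Run7.h847.NF.t_HYP p_FCB
theorem p_CEN : S_CEN := Run7.h847.NF.t_CEN p_SH p_FCB p_AXI p_AX1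
theorem p_LFA : S_LFA := Run7.h136.NF.t_LFA p_SH p_CON
theorem p_CYC : S_CYC := Run7.h842.NF.t_CYC
theorem p_LEF : S_LEF := Run7.h136.NF.t_LEF p_SH p_WAL p_AXI p_LFA p_CYC
theorem p_POS : S_POS := Run7.h896.NF.t_POS p_SH p_CON p_FCB p_EVB p_WAL p_AXI p_LEF
theorem p_PZR : S_PZR :=
  Run7.h858.NF.t_PZR p_SH p_FCB p_EVB p_WAL p_AXI p_AX1 p_HYP p_CEN p_POS
theorem p_KAP : S_KAP := Run7.h896.NF.t_KAP p_SH p_CON p_FCB p_EVB p_WAL p_AXI p_HYP p_PZR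
theorem p_LIP : S_LIP := Run7.h136.NF.t_LIP p_EVB p_WAL p_AXI p_LEF
theorem p_SHI : S_SHI := Run7.h136.NF.t_SHI p_EVB p_AXI
theorem p_STA : S_STA := Run7.h11.NF.t_STA p_EVB p_WAL p_AXI p_POS
theorem p_LEV : S_LEV := Run7.h136.NF.t_LEV p_EVB p_FCB p_WAL p_AXI
theorem p_GRC : S_GRC := Run7.h11.NF.t_GRC p_SH p_EVB p_WAL p_AXI p_HYP
theorem p_FIX : S_FIX := Run7.h847.NF.t_FIX p_CEN

/-- **The main theorem of the project.** -/
theorem main (n : ℕ) (G : Subgroup (MulAut (FG n)))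
    (hI : (MulAut.conj : FG n →* MulAut (FG n)).range ≤ G) (N : Subgroup G) (hN : N.Normal)
    (hP : ((MulAut.conj : FG n →* MulAut (FG n)).range).subgroupOf G ≤ N) :
    ∃ Γ : Subgroup (FG n), Γ.Normal ∧ (∀ f ∈ G, ∀ z ∈ Γ, f z ∈ Γ) ∧
      ∀ f : G, f ∈ N ↔ ∃ g : FG n, ∀ z, (f : MulAut (FG n)) z * (g * z * g⁻¹)⁻¹ ∈ Γ :=
  main_FG ⟨p_WAL, p_EVB, p_AXI, p_LIP, p_LEV, p_SHI, p_STA, p_GRC, p_FIX, p_CEN, p_KAP⟩
    n G hI N hN hP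

end Run7.h41.NF
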