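import Pool.Agent.Run7.h41.NF.Iface
import Pool.Agent.Run7.h955.H5

set_option autoImplicit false

/-!
# Project NF: assembly of the rotation system of the automorphism group of a free group
-/

namespace Run7.h41.NF

open Run7.h955 (Ev Thru Ins am cj RotSys)

variable {n : ℕ}

/-! ## The action on lines -/

theorem am_zp (f : MulAut (FG n)) (y : FG n) :
    am f (Subgroup.zpowers y) = Subgroup.zpowers (f y) := by
  unfold am
  rw [MonoidHom.map_zpowers]
  rfl

theorem am_one' (C : Subgroup (FG n)) : am 1 C = C := Subgroup.map_id C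

theorem am_mul' (f g : MulAut (FG n)) (C : Subgroup (FG n)) :
    am (f * g) C = am f (am g C) := by
  unfold am
  rw [Subgroup.map_map]
  rfl

theorem LL_am (f : MulAut (FG n)) {C : Subgroup (FG n)} (h : C ∈ LL n) : am f C ∈ LL n := by
  obtain ⟨ψ, rfl⟩ := h
  exact ⟨f * ψ, by rw [am_zp]; rfl⟩

/-- The action of the automorphism group on the lines. -/
@[reducible] def actL (n : ℕ) : MulAction (MulAut (FG n)) (LL n) where
  smul f C := ⟨am f C, LL_am f C.2⟩
  one_smul _ := Subtype.ext (am_one' _)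
  mul_smul f g _ := Subtype.ext (am_mul' f g _)

theorem am_inj' {f : MulAut (FG n)} {C D : Subgroup (FG n)} (h : am f C = am f D) : C = D := by
  rw [← am_one' C, ← inv_mul_cancel f, am_mul', h, ← am_mul', inv_mul_cancel, am_one']

theorem conj_map' (f : MulAut (FG n)) (y : FG n) :
    f * MulAut.conj y * f⁻¹ = MulAut.conj (f y) := by
  ext z
  simp [MulAut.mul_apply, MulAut.conj_apply]

theorem Cr_im (hE : S_EVB) (f : MulAut (FG n)) {y : FG n} {A : Set (FG n)} (h : Cr y A) :
    Cr (f y) (im f A) := by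
  have hE7 := (hE n).2.2.2.2.2.2.1
  have hc : (im f A)ᶜ = im f Aᶜ := rfl
  rcases h with h | h
  · left
    refine ⟨(hE7 f y A).mpr h.1, ?_⟩
    rw [hc, ← map_inv]
    exact (hE7 f y⁻¹ Aᶜ).mpr h.2
  · right
    refine ⟨?_, ?_⟩
    · rw [← map_inv]
      exact (hE7 f y⁻¹ A).mpr h.1
    · rw [hc, ← map_inv, ← map_inv]
      exact (hE7 f _ Aᶜ).mpr h.2

theorem Rl_am (hE : S_EVB) (hW : S_WAL) (f : MulAut (FG n)) {C D : Subgroup (FG n)} (h : Rl C D) :
    Rl (am f C) (am f D) := by
  obtain ⟨y, z, A, B, rfl, rfl, hA, hB, h1, h2, h3⟩ := h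
  refine ⟨f y, f z, im f A, im f B, am_zp f y, am_zp f z, (hW n).2.2.2.2.1 A f hA,
    (hW n).2.2.2.2.1 B f hB, Cr_im hE f h1, Cr_im hE f h2, ?_⟩
  rcases h3 with h3 | h3
  · left; rw [h3]
  · right; exact ((hW n).2.2.2.2.2.2.1 A B f).mpr h3

theorem Rl_symm (hW : S_WAL) {C D : Subgroup (FG n)} (h : Rl C D) : Rl D C := by
  obtain ⟨y, z, A, B, h1, h2, hA, hB, h3, h4, h5⟩ := h
  exact ⟨z, y, B, A, h2, h1, hB, hA, h4, h3, h5.imp (fun h => h.symm)
    ((hW n).2.2.2.2.2.2.2.2.1 A B)⟩

theorem adj_iff (hW : S_WAL) {C D : LL n} :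
    (gL n).Adj C D ↔ C ≠ D ∧ Rl (C : Subgroup (FG n)) D := by
  unfold gL
  rw [SimpleGraph.fromRel_adj]
  constructor
  · rintro ⟨h, h1 | h1⟩
    · exact ⟨h, h1⟩
    · exact ⟨h, Rl_symm hW h1⟩
  · rintro ⟨h, h1⟩
    exact ⟨h, Or.inl h1⟩

/-- The line of `xx`. -/
def xL (n : ℕ) : LL n := ⟨Subgroup.zpowers (xx n), 1, rfl⟩

/-! ## Geodesics -/

section walks

variable {V : Type*} {G : SimpleGraph V}

theorem exists_sub {a b : V} (w : G.Walk a b) (hw : w.length ≤ G.dist a b) (hG : G.Connected)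
    {c d : V} (hc : c ∈ w.support) (hd : d ∈ w.support) :
    ∃ (u v : V) (w' : G.Walk u v), ((u = c ∧ v = d) ∨ (u = d ∧ v = c)) ∧
      w'.length ≤ G.dist u v ∧ w'.support ⊆ w.support := by
  classical
  have h1 : w.length = (w.takeUntil c hc).length + (w.dropUntil c hc).length := by
    rw [← SimpleGraph.Walk.length_append, SimpleGraph.Walk.take_spec]
  rcases (SimpleGraph.Walk.mem_support_append_iff _ _).mp
    (by rw [SimpleGraph.Walk.take_spec]; exact hd :
      d ∈ ((w.takeUntil c hc).append (w.dropUntil c hc)).support) with h | h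
  · refine ⟨d, c, (w.takeUntil c hc).dropUntil d h, Or.inr ⟨rfl, rfl⟩, ?_, ?_⟩
    · have h2 : (w.takeUntil c hc).length = ((w.takeUntil c hc).takeUntil d h).length +
          ((w.takeUntil c hc).dropUntil d h).length := by
        rw [← SimpleGraph.Walk.length_append, SimpleGraph.Walk.take_spec]
      have h3 := SimpleGraph.dist_le ((w.takeUntil c hc).takeUntil d h)
      have h4 := SimpleGraph.dist_le (w.dropUntil c hc)
      have h5 := hG.dist_triangle (u := a) (v := d) (w := b)
      have h6 := hG.dist_triangle (u := d) (v := c) (w := b)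
      by_contra h7
      omega
    · exact List.Subset.trans (SimpleGraph.Walk.support_dropUntil_subset_support _ h)
        (SimpleGraph.Walk.support_takeUntil_subset_support _ hc)
  · refine ⟨c, d, (w.dropUntil c hc).takeUntil d h, Or.inl ⟨rfl, rfl⟩, ?_, ?_⟩
    · have h2 : (w.dropUntil c hc).length = ((w.dropUntil c hc).takeUntil d h).length +
          ((w.dropUntil c hc).dropUntil d h).length := by
        rw [← SimpleGraph.Walk.length_append, SimpleGraph.Walk.take_spec]
      have h3 := SimpleGraph.dist_le (w.takeUntil c hc)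
      have h4 := SimpleGraph.dist_le ((w.dropUntil c hc).dropUntil d h)
      have h5 := hG.dist_triangle (u := a) (v := c) (w := b)
      have h6 := hG.dist_triangle (u := c) (v := d) (w := b)
      by_contra h7
      omega
    · exact List.Subset.trans (SimpleGraph.Walk.support_takeUntil_subset_support _ h)
        (SimpleGraph.Walk.support_dropUntil_subset_support _ hc)

end walks

/-- The Lipschitz constant. -/
def th (n : ℕ) : ℤ := NN n + 4

theorem th_pos : 0 < th n := by unfold th; positivity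

section coord

variable (κ : Subgroup (FG n) → ℤ) (hκ : IsK n κ) (hW : S_WAL) (hA : S_AXI)
  (hL : S_LIP) (hV : S_LEV)

include hκ hW hL in
theorem lip_adj {p q : LL n} (hp : p ≠ xL n) (hq : q ≠ xL n) (h : (gL n).Adj p q) :
    |κ p - κ q| ≤ th n := by
  have h1 := ((adj_iff hW).mp h).2
  have e1 := hL n κ hκ p p.2 q q.2 (fun e => hp (Subtype.ext e)) (fun e => hq (Subtype.ext e)) h1
  have e2 := hL n κ hκ q q.2 p p.2 (fun e => hq (Subtype.ext e)) (fun e => hp (Subtype.ext e))
    (Rl_symm hW h1)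
  unfold th
  rw [abs_le]
  constructor <;> omega

include hκ hW hL in
theorem lip_walk {p q : LL n} (w : (gL n).Walk p q) (h : xL n ∉ w.support) :
    |κ p - κ q| ≤ th n * w.length := by
  induction w with
  | nil => simp
  | @cons u v c ha w ih =>
    rw [SimpleGraph.Walk.support_cons, List.mem_cons, not_or] at h
    have h1 := ih h.2
    have hv : v ≠ xL n := by
      intro e
      exact h.2 (e ▸ w.start_mem_support)
    have h2 := lip_adj κ hκ hW hL (Ne.symm h.1) hv ha
    have h3 := abs_sub_le (κ u) (κ v) (κ c)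
    rw [SimpleGraph.Walk.length_cons]
    push_cast
    linarith

include hκ hW hA hL hV in
theorem lev_walk (j : ℤ) {p q : LL n} (w : (gL n).Walk p q) (h : xL n ∉ w.support)
    (h1 : κ p < j) (h2 : j ≤ κ q) :
    ∃ c ∈ w.support, (gL n).dist c (xL n) ≤ 1 ∧ |κ c - j| ≤ th n := by
  induction w with
  | nil => omega
  | @cons u v c ha w ih =>
    rw [SimpleGraph.Walk.support_cons, List.mem_cons, not_or] at h
    by_cases h3 : κ v < j
    · obtain ⟨d, hd, h4⟩ := ih h.2 h3 h2
      exact ⟨d, List.mem_cons_of_mem _ hd, h4⟩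
    · rw [not_lt] at h3
      have hv : v ≠ xL n := by
        intro e
        exact h.2 (e ▸ w.start_mem_support)
      have hu : u ≠ xL n := Ne.symm h.1
      have h4 := lip_adj κ hκ hW hL hu hv ha
      rw [abs_le] at h4
      have h5 := ((adj_iff hW).mp ha).2
      obtain ⟨ψ, hψ⟩ := u.2
      obtain ⟨φ, hφ⟩ := v.2
      have hx1 : xx n ≠ 1 := (hA n).2.2.2.2.2.2.2.2.2.2.2.2.2.1
      have hne : ∀ ψ : MulAut (FG n), ψ (xx n) ≠ 1 := fun ψ e => hx1 (by simpa using e)
      have hu' : Subgroup.zpowers (ψ (xx n)) ≠ Subgroup.zpowers (xx n) := by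
        rw [← hψ]; exact fun e => hu (Subtype.ext e)
      have hv' : Subgroup.zpowers (φ (xx n)) ≠ Subgroup.zpowers (xx n) := by
        rw [← hφ]; exact fun e => hv (Subtype.ext e)
      obtain ⟨_, k2, _⟩ := hκ ψ hu' (κ u) (by rw [hψ])
      obtain ⟨l1, _, _⟩ := hκ φ hv' (κ v) (by rw [hφ])
      have hmono : ∀ i j : ℤ, i ≤ j → H n j ⊆ H n i := (hA n).2.2.2.2.2.2.2.2.2.1
      have hnot : ¬ Ins (ψ (xx n)) (H n j) := by
        intro hi
        apply k2
        have hs := hmono (κ u + 1) j (by omega)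
        exact ⟨fun z => (hi.1 z).mono fun m hm => hs hm,
          fun z => (hi.2 z).mono fun m hm => hs hm⟩
      rw [hψ, hφ] at h5
      rcases hV n j _ _ (hne ψ) (hne φ) h5 hnot (l1 j h3) with h6 | h6
      · refine ⟨u, by simp, ?_, ?_⟩
        · apply le_of_eq
          rw [SimpleGraph.dist_eq_one_iff_adj]
          refine (adj_iff hW).mpr ⟨hu, ?_⟩
          rw [hψ]; exact h6
        · rw [abs_le]; constructor <;> omega
      · refine ⟨v, List.mem_cons_of_mem _ w.start_mem_support, ?_, ?_⟩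
        · apply le_of_eq
          rw [SimpleGraph.dist_eq_one_iff_adj]
          refine (adj_iff hW).mpr ⟨hv, ?_⟩
          rw [hφ]; exact h6
        · rw [abs_le]; constructor <;> omega

include hκ hW hA hL hV in
theorem B_aux (hG : (gL n).Connected) {p q : LL n}
    (h : κ p + (4 * th n + 2) ≤ κ q) :
    (gL n).dist p q = (gL n).dist p (xL n) + (gL n).dist (xL n) q := by
  classical
  obtain ⟨w, hw⟩ := hG.exists_walk_length_eq_dist p q
  by_cases hx : xL n ∈ w.support
  · apply le_antisymm hG.dist_triangle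
    have h1 : w.length = (w.takeUntil _ hx).length + (w.dropUntil _ hx).length := by
      rw [← SimpleGraph.Walk.length_append, SimpleGraph.Walk.take_spec]
    have h2 := SimpleGraph.dist_le (w.takeUntil _ hx)
    have h3 := SimpleGraph.dist_le (w.dropUntil _ hx)
    omega
  · exfalso
    have ht := th_pos (n := n)
    obtain ⟨c, hc, c1, c2⟩ := lev_walk κ hκ hW hA hL hV (κ p + 1) w hx (by omega) (by omega)
    obtain ⟨d, hd, d1, d2⟩ := lev_walk κ hκ hW hA hL hV (κ q) w hx (by omega) le_rfl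
    obtain ⟨u, v, w', huv, hw', hs⟩ := exists_sub w hw.le hG hc hd
    have hcd : (gL n).dist c d ≤ 2 := by
      have h1 := hG.dist_triangle (u := c) (v := xL n) (w := d)
      rw [(gL n).dist_comm (u := xL n)] at h1
      omega
    have hl : w'.length ≤ 2 := by
      rcases huv with ⟨rfl, rfl⟩ | ⟨rfl, rfl⟩
      · omega
      · rw [(gL n).dist_comm] at hw'; omega
    have h3 := lip_walk κ hκ hW hL w' (fun e => hx (hs e))
    have h4 : th n * (w'.length : ℤ) ≤ th n * 2 := by
      apply mul_le_mul_of_nonneg_left _ ht.le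
      exact_mod_cast hl
    rw [abs_le] at c2 d2 h3
    rcases huv with ⟨rfl, rfl⟩ | ⟨rfl, rfl⟩ <;> omega

end coord

/-! ## Stabilizers and centralizers -/

theorem gen_xx (hE : S_EVB) (hA : S_AXI) {y : FG n}
    (h : Subgroup.zpowers (xx n) = Subgroup.zpowers y) :
    ∃ ε : ℤ, (ε = 1 ∨ ε = -1) ∧ y = xx n ^ ε := by
  have hx1 : xx n ≠ 1 := (hA n).2.2.2.2.2.2.2.2.2.2.2.2.2.1
  have hinj := (hE n).1 (xx n) hx1
  have h1 : y ∈ Subgroup.zpowers (xx n) := by rw [h]; exact Subgroup.mem_zpowers y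
  have h2 : xx n ∈ Subgroup.zpowers y := by rw [← h]; exact Subgroup.mem_zpowers _
  obtain ⟨k, hk⟩ := Subgroup.mem_zpowers_iff.mp h1
  obtain ⟨l, hl⟩ := Subgroup.mem_zpowers_iff.mp h2
  have h3 : xx n ^ (k * l) = xx n ^ (1 : ℤ) := by rw [zpow_mul, hk, hl, zpow_one]
  have h4 : k * l = 1 := hinj h3
  refine ⟨k, ?_, hk.symm⟩
  exact Int.eq_one_or_neg_one_of_mul_eq_one h4

theorem center_triv (hA : S_AXI) (hC : S_CEN) {c : FG n} (hc : ∀ x, c * x = x * c) : c = 1 := by
  have hN : NN n = 2 * (n + 2) := rfl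
  have h1 : c ∈ Subgroup.zpowers (xx n) := by
    refine (hC n).1 c 1 one_ne_zero ?_
    rw [zpow_one]; exact hc _
  by_contra h2
  have hx1 : xx n ≠ 1 := (hA n).2.2.2.2.2.2.2.2.2.2.2.2.2.1
  -- the letter `0`
  set a : FG n := el ((0, true) : Lt n) with ha
  obtain ⟨k, hk⟩ := Subgroup.mem_zpowers_iff.mp h1
  have hk0 : k ≠ 0 := by
    rintro rfl
    rw [zpow_zero] at hk
    exact h2 hk.symm
  have h3 : a ∈ Subgroup.zpowers (xx n) := by
    refine (hC n).1 a k hk0 ?_
    rw [hk]; exact (hc a).symm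
  have h4 : a ≠ 1 := by
    intro e
    have h5 : (a : FG n).norm = 0 := by rw [e]; exact FreeGroup.norm_one
    rw [ha] at h5
    unfold el at h5
    rw [FreeGroup.norm, FreeGroup.toWord_mk] at h5
    simp at h5
  have h5 := (hC n).2.2.2 a h3 h4
  have h6 : (a : FG n).norm ≤ 1 := by
    rw [ha]; unfold el
    exact (FreeGroup.norm_mk_le).trans (by simp)
  omega

theorem norm_el (a : Lt n) : (el a).norm = 1 := by
  unfold el
  rw [FreeGroup.norm, FreeGroup.toWord_mk]
  simp

theorem el_inj {a b : Lt n} (h : el a = el b) : a = b := by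
  unfold el at h
  have h1 := congrArg FreeGroup.toWord h
  rw [FreeGroup.toWord_mk, FreeGroup.toWord_mk] at h1
  simpa using h1

/-- The elements `1` and the letters. -/
def bt : Option (Lt n) → FG n
  | none => 1
  | some a => el a

theorem bt_inj {a b : Option (Lt n)} (h : bt a = bt b) : a = b := by
  match a, b, h with
  | none, none, _ => rfl
  | none, some b, h =>
    exfalso
    have h1 := norm_el b
    change (1 : FG n) = el b at h
    rw [← h] at h1
    simp at h1
  | some a, none, h =>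
    exfalso
    have h1 := norm_el a
    change el a = (1 : FG n) at h
    rw [h] at h1
    simp at h1
  | some a, some b, h => rw [el_inj h]

theorem norm_bt (a : Option (Lt n)) : (bt a).norm ≤ 1 := by
  match a with
  | none => exact (FreeGroup.norm_one).le.trans zero_le_one
  | some a => exact (norm_el a).le

/-- The number of the elements `bt`. -/
def rr (n : ℕ) : ℕ := Fintype.card (Option (Lt n))

theorem rr_pos : 0 < rr n := Fintype.card_pos

theorem two_le_rr : 2 ≤ rr n := by
  unfold rr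
  rw [Fintype.card_option]
  have : 0 < Fintype.card (Lt n) := Fintype.card_pos_iff.mpr ⟨((0 : Fin (n + 2)), true)⟩
  omega

/-- The periodic enumeration. -/
noncomputable def bb (n : ℕ) (i : ℕ) : FG n :=
  bt ((Fintype.equivFin (Option (Lt n))).symm ⟨i % rr n, Nat.mod_lt _ rr_pos⟩)

theorem bb_per (i : ℕ) : bb n (i + rr n) = bb n i := by
  unfold bb
  simp

theorem bb_ne (i : ℕ) : bb n i ≠ bb n (i + 1) := by
  intro h
  have h1 := (Fintype.equivFin (Option (Lt n))).symm.injective (bt_inj h)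
  have h2 : i % rr n = (i + 1) % rr n := congrArg Fin.val h1
  have h3 := two_le_rr (n := n)
  have h4 : (i + 1) % rr n = i % rr n := h2.symm
  have h5 : rr n ∣ (i + 1) - i := (Nat.modEq_iff_dvd' (by omega)).mp h2
  have h6 : i + 1 - i = 1 := by omega
  rw [h6, Nat.dvd_one] at h5
  omega

theorem bb_surj (a : Option (Lt n)) : ∃ i, bb n i = bt a := by
  refine ⟨(Fintype.equivFin (Option (Lt n)) a).val, ?_⟩
  unfold bb
  congr 1
  rw [Equiv.symm_apply_eq]
  apply Fin.ext
  exact Nat.mod_eq_of_lt (Fintype.equivFin (Option (Lt n)) a).isLt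

theorem norm_bb (i : ℕ) : (bb n i).norm ≤ 1 := norm_bt _

theorem bb_line (hC : S_CEN) (i : ℕ) :
    am (MulAut.conj (bb n i)) (Subgroup.zpowers (xx n)) ≠
      am (MulAut.conj (bb n (i + 1))) (Subgroup.zpowers (xx n)) := by
  intro h
  have hN : NN n = 2 * (n + 2) := rfl
  have h1 : am (MulAut.conj ((bb n (i + 1))⁻¹ * bb n i)) (Subgroup.zpowers (xx n)) =
      Subgroup.zpowers (xx n) := by
    rw [map_mul, am_mul', h, ← am_mul', ← map_mul, inv_mul_cancel, map_one, am_one']
  rw [am_zp, MulAut.conj_apply] at h1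
  have h2 := (hC n).2.2.1 _ h1
  have h3 : (bb n (i + 1))⁻¹ * bb n i ≠ 1 := fun e => bb_ne i (inv_mul_eq_one.mp e).symm
  have h4 := (hC n).2.2.2 _ h2 h3
  have h5 := FreeGroup.norm_mul_le (bb n (i + 1))⁻¹ (bb n i)
  have h6 := norm_bb (n := n) i
  have h7 := norm_bb (n := n) (i + 1)
  rw [FreeGroup.norm_inv_eq] at h5
  omega

/-! ## The rotation system -/

theorem exists_rot (hS : S_WAL ∧ S_EVB ∧ S_AXI ∧ S_LIP ∧ S_LEV ∧ S_SHI ∧ S_STA ∧ S_GRC ∧ S_FIX ∧
    S_CEN ∧ S_KAP) (n : ℕ) (G : Subgroup (MulAut (FG n)))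
    (hI : (MulAut.conj : FG n →* MulAut (FG n)).range ≤ G) :
    ∃ (V : Type) (_ : MulAction G V) (R : RotSys G V),
      R.P = ((MulAut.conj : FG n →* MulAut (FG n)).range).subgroupOf G := by
  obtain ⟨hW, hE, hA, hL, hV, hSh, hSt, hG, hF, hC, hK⟩ := hS
  obtain ⟨κ, hκ0⟩ := hK n
  have hκ : IsK n κ := hκ0
  obtain ⟨hconn, T, hT⟩ := hG n
  let _ := actL n
  have hsm : ∀ (f : MulAut (FG n)) (C : LL n), ((f • C : LL n) : Subgroup (FG n)) = am f C :=
    fun _ _ => rfl
  have hsm' : ∀ (f : G) (C : LL n), f • C = (f : MulAut (FG n)) • C := fun _ _ => rfl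
  have hc : ∀ y : FG n, MulAut.conj y ∈ G := fun y => hI ⟨y, rfl⟩
  refine ⟨LL n, inferInstance,
    { gr := gL n
      gr_smul := ?_
      conn := hconn
      P := ((MulAut.conj : FG n →* MulAut (FG n)).range).subgroupOf G
      Pn := ?_
      x0 := xL n
      ρ := ⟨MulAut.conj (xx n), hc _⟩
      ρP := ⟨xx n, rfl⟩
      ρx := ?_
      κ := fun C => κ C
      θ := th n
      Θ := 4 * th n + 2
      A1 := ?_
      A2 := ?_
      B := ?_
      A3 := ?_
      r := rr n
      rpos := rr_pos
      b := fun i => ⟨MulAut.conj (bb n i), hc _⟩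
      bper := ?_
      bne := ?_
      F := ?_
      C := T.sup (fun E => (gL n).dist
        ((⟨MulAut.conj (bb n (rr n - 1)), hc _⟩ : G) • xL n) E) + 1
      J := ?_ }, rfl⟩
  · intro g p q hpq
    obtain ⟨h1, h2⟩ := (adj_iff hW).mp hpq
    refine (adj_iff hW).mpr ⟨?_, ?_⟩
    · intro h
      apply h1
      exact Subtype.ext (am_inj' (congrArg Subtype.val h))
    · exact Rl_am hE hW g h2
  · refine ⟨?_⟩
    rintro ⟨p, hp⟩ hp' ⟨f, hf⟩
    obtain ⟨y, hy⟩ := hp'
    refine ⟨f y, ?_⟩
    have hy' : MulAut.conj y = p := hy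
    change MulAut.conj (f y) = f * p * f⁻¹
    rw [← hy', conj_map']
  · apply Subtype.ext
    rw [hsm', hsm]
    change am (MulAut.conj (xx n)) (Subgroup.zpowers (xx n)) = Subgroup.zpowers (xx n)
    rw [am_zp, MulAut.conj_apply, mul_inv_cancel_right]
  · intro p q hp hq hpq
    exact lip_adj κ hκ hW hL hp hq hpq
  · intro p hp
    exact hSh n κ hκ p p.2 (fun h => hp (Subtype.ext h))
  · intro p q hp hq hpq
    rcases le_total (κ p) (κ q) with h | h
    · refine B_aux κ hκ hW hA hL hV hconn ?_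
      rw [abs_sub_comm, abs_of_nonneg (sub_nonneg.mpr h)] at hpq
      linarith
    · have e : (gL n).dist q p = (gL n).dist q (xL n) + (gL n).dist (xL n) p := by
        refine B_aux κ hκ hW hA hL hV hconn ?_
        rw [abs_of_nonneg (sub_nonneg.mpr h)] at hpq
        linarith
      have e1 := (gL n).dist_comm (u := p) (v := q)
      have e2 := (gL n).dist_comm (u := p) (v := xL n)
      have e3 := (gL n).dist_comm (u := xL n) (v := q)
      omega
  · intro s hs
    have h2 : Subgroup.zpowers (xx n) = Subgroup.zpowers ((s : MulAut (FG n)) (xx n)) := by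
      have := congrArg Subtype.val hs
      rw [hsm', hsm] at this
      change am (s : MulAut (FG n)) (Subgroup.zpowers (xx n)) = Subgroup.zpowers (xx n) at this
      rw [am_zp] at this
      exact this.symm
    obtain ⟨ε, hε, hsx⟩ := gen_xx hE hA h2
    refine ⟨ε, hε, ?_, ?_⟩
    · apply Subtype.ext
      change (s : MulAut (FG n)) * MulAut.conj (xx n) * (s : MulAut (FG n))⁻¹ = _
      rw [conj_map', hsx, map_zpow]
      rfl
    · obtain ⟨c, hc⟩ := hSt n κ hκ s ε hε hsx
      exact ⟨c, fun p hp => hc p p.2 (fun h => hp (Subtype.ext h))⟩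
  · intro i
    apply Subtype.ext
    change MulAut.conj (bb n (i + rr n)) = MulAut.conj (bb n i)
    rw [bb_per]
  · intro i h
    exact bb_line hC i (congrArg Subtype.val h)
  · intro s hs
    have h2 : ∀ a : Option (Lt n), (s : MulAut (FG n)) (bt a * xx n * (bt a)⁻¹) =
        bt a * xx n * (bt a)⁻¹ := by
      intro a
      obtain ⟨i, hi⟩ := bb_surj a
      have h3 := congrArg Subtype.val (hs i)
      change (s : MulAut (FG n)) * (MulAut.conj (bb n i) * MulAut.conj (xx n) *
        (MulAut.conj (bb n i))⁻¹) = (MulAut.conj (bb n i) * MulAut.conj (xx n) *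
        (MulAut.conj (bb n i))⁻¹) * (s : MulAut (FG n)) at h3
      rw [← map_inv, ← map_mul, ← map_mul, hi] at h3
      have h4 : MulAut.conj ((s : MulAut (FG n)) (bt a * xx n * (bt a)⁻¹)) =
          MulAut.conj (bt a * xx n * (bt a)⁻¹) := by
        rw [← conj_map', h3, mul_inv_cancel_right]
      have h5 : (bt a * xx n * (bt a)⁻¹)⁻¹ * (s : MulAut (FG n)) (bt a * xx n * (bt a)⁻¹) = 1 := by
        apply center_triv hA hC
        intro z
        have h6 := DFunLike.congr_fun h4 z
        rw [MulAut.conj_apply, MulAut.conj_apply] at h6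
        have h7 : (s : MulAut (FG n)) (bt a * xx n * (bt a)⁻¹) * z =
            (bt a * xx n * (bt a)⁻¹) * z * (bt a * xx n * (bt a)⁻¹)⁻¹ *
              (s : MulAut (FG n)) (bt a * xx n * (bt a)⁻¹) := by
          rw [← h6]; group
        rw [mul_assoc, h7]
        group
      exact (inv_mul_eq_one.mp h5).symm
    apply Subtype.ext
    refine hF n s ?_ ?_
    · have h3 := h2 none
      change (s : MulAut (FG n)) (1 * xx n * 1⁻¹) = 1 * xx n * 1⁻¹ at h3
      rw [one_mul, inv_one, mul_one] at h3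
      exact h3
    · intro a
      exact h2 (some a)
  · intro t
    obtain ⟨p, D, hD, E, hET, hd⟩ := hT _ (t • ((⟨MulAut.conj (bb n 0), hc _⟩ : G) • xL n)).2
    refine ⟨⟨MulAut.conj p, hc p⟩, ⟨p, rfl⟩, ?_⟩
    have h2 : ((⟨MulAut.conj p, hc p⟩ : G) * t) • ((⟨MulAut.conj (bb n 0), hc _⟩ : G) • xL n) =
        D := by
      rw [mul_smul]
      exact Subtype.ext hD
    rw [h2]
    have h3 := hconn.dist_triangle (u := (⟨MulAut.conj (bb n (rr n - 1)), hc _⟩ : G) • xL n)
      (v := E) (w := D)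
    have h4 := Finset.le_sup (f := fun E => (gL n).dist
        ((⟨MulAut.conj (bb n (rr n - 1)), hc _⟩ : G) • xL n) E) hET
    rw [(gL n).dist_comm (u := D)] at hd
    omega

instance countable_FG (n : ℕ) : Countable (FG n) := by
  have : Function.Surjective (FreeGroup.mk : List (Fin (n + 2) × Bool) → _) :=
    Quot.mk_surjective
  exact this.countable

instance countable_aut (n : ℕ) : Countable (MulAut (FG n)) := by
  have : Function.Injective (fun (φ : MulAut (FG n)) (i : Fin (n + 2)) =>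
      φ (FreeGroup.of i)) := by
    intro φ ψ h
    have h2 : (φ : FG n ≃* FG n).toMonoidHom = (ψ : FG n ≃* FG n).toMonoidHom :=
      FreeGroup.ext_hom _ _ fun i => congrFun h i
    ext x
    exact DFunLike.congr_fun h2 x
  exact this.countable

/-- Every normal subgroup of `G` which contains the inner automorphisms is the group of the
elements of `G` acting as inner automorphisms on the quotient by some subgroup. -/
theorem main_FG (hS : S_WAL ∧ S_EVB ∧ S_AXI ∧ S_LIP ∧ S_LEV ∧ S_SHI ∧ S_STA ∧ S_GRC ∧ S_FIX ∧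
    S_CEN ∧ S_KAP) (n : ℕ) (G : Subgroup (MulAut (FG n)))
    (hI : (MulAut.conj : FG n →* MulAut (FG n)).range ≤ G) (N : Subgroup G) (hN : N.Normal)
    (hP : ((MulAut.conj : FG n →* MulAut (FG n)).range).subgroupOf G ≤ N) :
    ∃ Γ : Subgroup (FG n), Γ.Normal ∧ (∀ f ∈ G, ∀ z ∈ Γ, f z ∈ Γ) ∧
      ∀ f : G, f ∈ N ↔ ∃ g : FG n, ∀ z, (f : MulAut (FG n)) z * (g * z * g⁻¹)⁻¹ ∈ Γ := by
  obtain ⟨V, hV, R, hR⟩ := exists_rot hS n G hI
  obtain ⟨M, hM, h1, h2⟩ := R.main N hN (by rw [hR]; exact hP)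
  rw [hR] at h1 h2
  have hc : ∀ y : FG n, MulAut.conj y ∈ G := fun y => hI ⟨y, rfl⟩
  -- the homomorphism to `G`
  let c : FG n →* G := (MulAut.conj : FG n →* MulAut (FG n)).codRestrict G hc
  have hcv : ∀ y, ((c y : G) : MulAut (FG n)) = MulAut.conj y := fun _ => rfl
  have hcj : ∀ (f : G) (y : FG n), f * c y * f⁻¹ = c ((f : MulAut (FG n)) y) := by
    intro f y
    apply Subtype.ext
    exact conj_map' _ _
  refine ⟨M.comap c, inferInstance, ?_, ?_⟩
  · intro f hf z hz
    rw [Subgroup.mem_comap] at hz ⊢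
    have h3 := hM.conj_mem _ hz ⟨f, hf⟩
    rw [hcj] at h3
    exact h3
  · intro f
    rw [← h1]
    constructor
    · intro h
      have hPn : (((MulAut.conj : FG n →* MulAut (FG n)).range).subgroupOf G).Normal := by
        rw [← hR]; exact R.Pn
      obtain ⟨m, hm, p, hp, rfl⟩ := (Subgroup.mem_sup_of_normal_right).mp h
      obtain ⟨g, hg⟩ := hp
      have hg' : p = c g := Subtype.ext hg.symm
      refine ⟨g, fun z => ?_⟩
      rw [Subgroup.mem_comap]
      have e1 : ((m * p : G) : MulAut (FG n)) z = (m : MulAut (FG n)) (g * z * g⁻¹) := by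
        rw [hg']; rfl
      rw [e1, map_mul, map_inv, ← hcj]
      generalize c (g * z * g⁻¹) = w
      have e2 : m * w * m⁻¹ * w⁻¹ = m * (w * m⁻¹ * w⁻¹) := by group
      rw [e2]
      exact M.mul_mem hm (hM.conj_mem _ (M.inv_mem hm) _)
    · rintro ⟨g, hg⟩
      have h3 : f * (c g)⁻¹ ∈ M := by
        apply h2
        rintro p hp
        obtain ⟨w, hw⟩ := hp
        have hw' : p = c w := Subtype.ext hw.symm
        rw [hw', hcj, ← map_inv c w, ← map_mul]
        have h4 := hg (g⁻¹ * w * g)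
        have e1 : ((f * (c g)⁻¹ : G) : MulAut (FG n)) w = (f : MulAut (FG n)) (g⁻¹ * w * g) := by
          change (f : MulAut (FG n)) ((MulAut.conj g)⁻¹ w) = _
          rw [MulAut.conj_inv_apply]
        have e2 : g * (g⁻¹ * w * g) * g⁻¹ = w := by group
        rw [e2] at h4
        rw [e1]
        exact h4
      have e : f = (f * (c g)⁻¹) * c g := by group
      rw [e]
      exact Subgroup.mul_mem _ (Subgroup.mem_sup_left h3) (Subgroup.mem_sup_right ⟨g, rfl⟩)

end Run7.h41.NF
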