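import Pool.Agent.Run7.h955.Defs

set_option autoImplicit false

/-!
# Project NF: normal subgroups of the outer automorphism group of a free group are kernels

Definitions: the Cayley tree of the free group of rank `n + 2`, shadows of oriented edges, walls
(images of shadows under automorphisms), crossing, the special element `xx = a₀² a₁² ⋯`, the
family of lines `LL` and its graph.
-/

namespace Run7.h41.NF

open Run7.h955 (Ev Thru Ins am cj)

/-- The free group of rank `n + 2`. -/
abbrev FG (n : ℕ) : Type := FreeGroup (Fin (n + 2))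

/-- The letters. -/
abbrev Lt (n : ℕ) : Type := Fin (n + 2) × Bool

variable {n : ℕ}

/-- The letter as an element. -/
def el (s : Lt n) : FG n := FreeGroup.mk [s]

/-- The inverse letter. -/
def op (s : Lt n) : Lt n := (s.1, !s.2)

/-- The shadow of the oriented edge from `v` to `v * el s` of the Cayley tree: the `y` such that the
reduced word of `v⁻¹ y` starts with `s`. -/
def Sh (v : FG n) (s : Lt n) : Set (FG n) := {y | (v⁻¹ * y).toWord.head? = some s}

/-- Finite coboundary. -/
def FC (A : Set (FG n)) : Prop := ∀ s : FG n, {x | ¬ (x * s ∈ A ↔ x ∈ A)}.Finite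

/-- Inclusion up to a finite set. -/
def Sub (A B : Set (FG n)) : Prop := (A \ B).Finite

/-- The sets `A` and `B` cross: all four corners are infinite. -/
def X4 (A B : Set (FG n)) : Prop :=
  (A ∩ B).Infinite ∧ (A ∩ Bᶜ).Infinite ∧ (Aᶜ ∩ B).Infinite ∧ (Aᶜ ∩ Bᶜ).Infinite

/-- The left translate `g A`. -/
def tr (g : FG n) (A : Set (FG n)) : Set (FG n) := {y | g⁻¹ * y ∈ A}

/-- The image `φ(A)`. -/
def im (φ : MulAut (FG n)) (A : Set (FG n)) : Set (FG n) := {y | φ⁻¹ y ∈ A}

/-- Walls: images of shadows under automorphisms. -/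
def Wall (A : Set (FG n)) : Prop :=
  ∃ (φ : MulAut (FG n)) (v : FG n) (s : Lt n), A = im φ (Sh v s)

/-! ## The special element -/

/-- The letters of the periodic positive word `a₀ a₀ a₁ a₁ a₂ a₂ ⋯`, period `2 (n + 2)`. -/
def lt (n r : ℕ) : Lt n := (Fin.ofNat (n + 2) (r / 2), true)

/-- Its prefixes. -/
def pr (n : ℕ) : ℕ → FG n
  | 0 => 1
  | r + 1 => pr n r * el (lt n r)

/-- The length `2 (n + 2)` of the special element. -/
def NN (n : ℕ) : ℕ := 2 * (n + 2)

/-- The special element `a₀² a₁² ⋯ a_{n+1}²`. -/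
def xx (n : ℕ) : FG n := pr n (NN n)

/-- The walls `H_j = xx^j H_0` crossed by the line of `xx`. -/
def H (n : ℕ) (j : ℤ) : Set (FG n) := Sh (xx n ^ j) (0, true)

/-! ## Lines -/

/-- The line of `z` crosses `A` (the orientation does not matter). -/
def Cr (z : FG n) (A : Set (FG n)) : Prop := Thru z A ∨ Thru z⁻¹ A

/-- The family of lines: the images of the line of `xx` under automorphisms. -/
def LL (n : ℕ) : Set (Subgroup (FG n)) := {C | ∃ ψ : MulAut (FG n), C = Subgroup.zpowers (ψ (xx n))}

/-- Two lines are related if they are crossed by one wall or by two walls which cross. -/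
def Rl (C D : Subgroup (FG n)) : Prop :=
  ∃ (y z : FG n) (A B : Set (FG n)), C = Subgroup.zpowers y ∧ D = Subgroup.zpowers z ∧
    Wall A ∧ Wall B ∧ Cr y A ∧ Cr z B ∧ (A = B ∨ X4 A B)

/-- The graph of lines. -/
def gL (n : ℕ) : SimpleGraph (LL n) :=
  SimpleGraph.fromRel fun C D => Rl (C : Subgroup (FG n)) (D : Subgroup (FG n))

end Run7.h41.NF
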