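import Pool.Agent.Run7.h41.NF.Defs

set_option autoImplicit false

/-!
# Project NF: the pieces

Each piece is a closed proposition `S_XXX`.  A piece may use the earlier ones as hypotheses (stated
in its docstring under `Uses`).  All free groups are `FG n = FreeGroup (Fin (n + 2))`.
-/

namespace Run7.h41.NF

open Run7.h955 (Ev Thru Ins am cj)

/-! ## Basics of shadows, almost inclusions, ends -/

/-- SH: the tree.  Uses: nothing.  (Mathlib: `FreeGroup.reduce.cons`, `FreeGroup.toWord_mul`,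
`FreeGroup.isReduced_toWord`; write `w = v⁻¹ * y`; `(el s)⁻¹ = el (op s)`; the reduced word of `el s * w` is
`s :: w.toWord` unless `w` starts with `op s`.) -/
def S_SH : Prop := ∀ n : ℕ,
  (∀ (g v : FG n) (s : Lt n), tr g (Sh v s) = Sh (g * v) s) ∧
  (∀ (v : FG n) (s : Lt n), (Sh v s)ᶜ = Sh (v * el s) (op s)) ∧
  (∀ v y : FG n, y ≠ v → ∃ s, y ∈ Sh v s) ∧
  (∀ (v : FG n) (s : Lt n), v ∉ Sh v s) ∧
  (∀ (v y : FG n) (s t : Lt n), y ∈ Sh v s → y ∈ Sh v t → s = t) ∧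
  -- the only edge which enters the shadow
  (∀ (v z : FG n) (s t : Lt n), z ∉ Sh v s → z * el t ∈ Sh v s → z = v ∧ t = s) ∧
  -- children
  (∀ (v : FG n) (s t : Lt n), t ≠ op s → Sh (v * el s) t ⊆ Sh v s) ∧
  (∀ (v y : FG n) (s : Lt n), y ∈ Sh v s → y ≠ v * el s → ∃ t, t ≠ op s ∧ y ∈ Sh (v * el s) t) ∧
  (∀ (v y : FG n) (s : Lt n), y ∈ Sh v s → ((v * el s)⁻¹ * y).norm + 1 = (v⁻¹ * y).norm) ∧
  (∀ (v : FG n) (s : Lt n), v * el s ∈ Sh v s) ∧
  (∀ (v : FG n) (s : Lt n), (Sh v s).Infinite)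

/-- CON: shadows are connected.  Uses: SH or nothing.  Induction on the norm of `v⁻¹ y`: if
`y ∈ Sh v s`, `y ≠ v * el s`, let `y'` be obtained by deleting the last letter of the reduced word of `v⁻¹ y`;
then `y' ∈ Sh v s`, `y = y' * el t`. -/
def S_CON : Prop := ∀ (n : ℕ) (A : Set (FG n)) (v : FG n) (s : Lt n),
  (∀ y ∈ Sh v s, ∀ t, y * el t ∈ Sh v s → (y * el t ∈ A ↔ y ∈ A)) → Sh v s ⊆ A ∨ Sh v s ⊆ Aᶜ

/-- FCB: finite coboundary.  Uses: SH (for the last item: the coboundary of `Sh v s` along `el t` is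
contained in `{v, v * el s}`).  The first item: closure induction over words. -/
def S_FCB : Prop := ∀ n : ℕ,
  (∀ A : Set (FG n), (∀ t : Lt n, {x | ¬ (x * el t ∈ A ↔ x ∈ A)}.Finite) → FC A) ∧
  (∀ A : Set (FG n), FC A → FC Aᶜ) ∧
  (∀ (g : FG n) (A : Set (FG n)), FC A → FC (tr g A)) ∧
  (∀ (φ : MulAut (FG n)) (A : Set (FG n)), FC A → FC (im φ A)) ∧
  (∀ (v : FG n) (s : Lt n), FC (Sh v s))

/-- EVB: ends.  Uses: nothing.  (Free groups are torsion free, so `m ↦ z ^ m` is injective and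
`z ^ m * y` leaves every finite set.  For `FC A` the set of `m` with `z ^ m * y ∈ A`, `z ^ (m+1) * y = z ^ m * y * (y⁻¹ z y) ∉ A` is
finite, so the membership of `z ^ m * y` in `A` is eventually constant; and `z ^ m * y`, `z ^ m * y'` differ by
a right multiplication, so it does not depend on the base point.) -/
def S_EVB : Prop := ∀ n : ℕ,
  (∀ z : FG n, z ≠ 1 → Function.Injective fun m : ℤ => z ^ m) ∧
  (∀ (z : FG n) (A : Set (FG n)), z ≠ 1 → FC A → Ev z A ∨ Ev z Aᶜ) ∧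
  (∀ (z : FG n) (A : Set (FG n)), Ev z A → ¬ Ev z Aᶜ) ∧
  (∀ (z : FG n) (A B : Set (FG n)), z ≠ 1 → Ev z A → Sub A B → Ev z B) ∧
  (∀ (z : FG n) (A B : Set (FG n)), z ≠ 1 → Ev z A → Ev z B → (A ∩ B).Infinite) ∧
  (∀ (g z : FG n) (A : Set (FG n)), Ev (g * z * g⁻¹) (tr g A) ↔ Ev z A) ∧
  (∀ (φ : MulAut (FG n)) (z : FG n) (A : Set (FG n)), Ev (φ z) (im φ A) ↔ Ev z A) ∧
  -- one base point, infinitely often, is enough
  (∀ (z y : FG n) (A : Set (FG n)), z ≠ 1 → FC A → (∃ᶠ m : ℕ in Filter.atTop, z ^ m * y ∈ A) → Ev z A) ∧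
  -- powers
  (∀ (z : FG n) (A : Set (FG n)) (k : ℕ), z ≠ 1 → FC A → 0 < k → (Ev (z ^ k) A ↔ Ev z A)) ∧
  -- almost invariant under an element with the same axis
  (∀ (z : FG n) (A : Set (FG n)) (k : ℤ), FC A → (Ev z (tr (z ^ k) A) ↔ Ev z A))

/-- NES: two shadows are nested.  Uses: SH, CON.  (If not both `v`, `v * el s` are in `Sh w t` then
`Sh w t` contains no edge of the coboundary of `Sh v s`, so CON gives `Sh w t ⊆ Sh v s` or `⊆ (Sh v s)ᶜ`.  If both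
are in `Sh w t`, apply this to the complement `(Sh w t)ᶜ = Sh (w * el t) (op t)`.) -/
def S_NES : Prop := ∀ (n : ℕ) (v w : FG n) (s t : Lt n),
  Sh v s ∩ Sh w t = ∅ ∨ Sh v s ∩ (Sh w t)ᶜ = ∅ ∨ (Sh v s)ᶜ ∩ Sh w t = ∅ ∨ (Sh v s)ᶜ ∩ (Sh w t)ᶜ = ∅

/-- WAL: walls.  Uses: SH, FCB, NES.  (`tr g (im φ A) = im φ (tr (φ⁻¹ g) A)`.) -/
def S_WAL : Prop := ∀ n : ℕ,
  (∀ A : Set (FG n), Wall A → FC A) ∧
  (∀ (A : Set (FG n)) (g : FG n), Wall A → ¬ X4 A (tr g A)) ∧
  (∀ A : Set (FG n), Wall A → Wall Aᶜ) ∧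
  (∀ (A : Set (FG n)) (g : FG n), Wall A → Wall (tr g A)) ∧
  (∀ (A : Set (FG n)) (φ : MulAut (FG n)), Wall A → Wall (im φ A)) ∧
  (∀ (v : FG n) (s : Lt n), Wall (Sh v s)) ∧
  (∀ (A B : Set (FG n)) (φ : MulAut (FG n)), X4 (im φ A) (im φ B) ↔ X4 A B) ∧
  (∀ (A B : Set (FG n)) (g : FG n), X4 (tr g A) (tr g B) ↔ X4 A B) ∧
  (∀ A B : Set (FG n), X4 A B → X4 B A) ∧
  (∀ A B : Set (FG n), X4 Aᶜ B ↔ X4 A B)

/-! ## The axis of `xx` -/

/-- AXI: the prefixes and the order of the walls `H j`.  Uses: SH, EVB (last item).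
The word of `pr n r` is `[lt n 0, ..., lt n (r-1)]` (all letters positive, so reduced), and
`pr n (r + i * NN n) = xx n ^ i * pr n r`. -/
def S_AXI : Prop := ∀ n : ℕ,
  (∀ r : ℕ, lt n (r + NN n) = lt n r) ∧
  (∀ r i : ℕ, pr n (r + i * NN n) = xx n ^ i * pr n r) ∧
  (∀ r : ℕ, (pr n r).norm = r) ∧
  (∀ r m : ℕ, r < m → pr n m ∈ Sh (pr n r) (lt n r)) ∧
  (∀ r m : ℕ, m ≤ r → pr n m ∉ Sh (pr n r) (lt n r)) ∧
  -- the walls along the prefixes decrease
  (∀ r m : ℕ, r ≤ m → Sh (pr n m) (lt n m) ⊆ Sh (pr n r) (lt n r)) ∧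
  H n 0 = Sh (pr n 0) (lt n 0) ∧ H n 1 = Sh (pr n (NN n)) (lt n (NN n)) ∧
  (∀ i j : ℤ, tr (xx n ^ i) (H n j) = H n (i + j)) ∧
  (∀ i j : ℤ, i ≤ j → H n j ⊆ H n i) ∧
  (∀ i j : ℤ, i < j → (H n i \ H n j).Infinite) ∧
  (∀ y : FG n, ∃ J : ℤ, ∀ j, J ≤ j → y ∉ H n j) ∧
  (∀ y : FG n, ∃ J : ℤ, ∀ j, j ≤ J → y ∈ H n j) ∧
  xx n ≠ 1 ∧
  (∀ j : ℤ, Thru (xx n) (H n j))

/-- AX1: the shadows crossed by `xx` are those of the edges of the axis.  Uses: SH, EVB, AXI.
(For `m` large `xx^m ∈ Sh v s`, `xx^(-m) ∉ Sh v s`; walk from `xx^(-m)` to `xx^m` through the vertices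
`xx^(-m) * pr n k`, `k = 0, ..., 2 m NN`; the step which enters `Sh v s` is the edge from `v` to `v * el s`.  Write
`k = i * NN + r` with `r < NN`.) -/
def S_AX1 : Prop := ∀ (n : ℕ) (v : FG n) (s : Lt n), Thru (xx n) (Sh v s) →
  ∃ (i : ℤ) (r : ℕ), r < NN n ∧ v = xx n ^ i * pr n r ∧ s = lt n r

/-- HYP: every nontrivial element crosses a shadow.  Uses: SH, FCB, EVB.  (Mathlib:
`FreeGroup.CyclicallyReduced`: `z = g w g⁻¹`, `w` cyclically reduced; take `Sh g s`, `s` the first letter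
of `w`: `z^m g = g w^m ∈ Sh g s`, `z^(-m) g = g w^(-m) ∉ Sh g s`.) -/
def S_HYP : Prop := ∀ (n : ℕ) (z : FG n), z ≠ 1 → ∃ (v : FG n) (s : Lt n), Thru z (Sh v s)

/-- CEN: centralizers and roots.  Uses: SH, FCB, EVB, AXI, AX1.
(1) If `g` commutes with `xx^a`, `a > 0`, then `Thru xx (tr g (H 0))`, so `(g, lt 0) = (xx^i pr r, lt r)`, `lt r = lt 0`
gives `r = 0` or `r = 1` (the letter `(0, true)` occurs only at `r = 0, 1`), so `g = xx^i` or `g = xx^i el (0,true)`; in the second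
case `el (0, true)` commutes with `xx^a`, hence so does its square, which is therefore `xx^l` or `xx^l el (0,true)`: impossible by
the norm (norm of `xx^l` is `|l| NN`, `NN ≥ 4`).  (2) `y := ψ xx` commutes with `y^e = xx^a`, so `y ∈ <xx>` by (1); apply `ψ⁻¹` to get the other
inclusion.  (3) `g xx g⁻¹ = xx^(±1)`, so `g^2` commutes with `xx`, `g^2 = xx^i`; if `i ≠ 0` then `g` commutes with `xx^i`; if `i = 0` then `g = 1`. -/
def S_CEN : Prop := ∀ n : ℕ,
  (∀ (g : FG n) (a : ℤ), a ≠ 0 → g * xx n ^ a = xx n ^ a * g → g ∈ Subgroup.zpowers (xx n)) ∧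
  (∀ (ψ : MulAut (FG n)) (a e : ℤ), a ≠ 0 → xx n ^ a = ψ (xx n) ^ e →
    Subgroup.zpowers (ψ (xx n)) = Subgroup.zpowers (xx n)) ∧
  (∀ g : FG n, Subgroup.zpowers (g * xx n * g⁻¹) = Subgroup.zpowers (xx n) → g ∈ Subgroup.zpowers (xx n)) ∧
  (∀ (g : FG n), g ∈ Subgroup.zpowers (xx n) → g ≠ 1 → NN n ≤ g.norm)

/-! ## The Whitehead graph argument -/

/-- LFA: leaves.  Uses: SH, CON.  Let `B` be the finite set of the `x` with `x * el t ∈ A ≁ x ∈ A` for some
letter `t`.  If `X4 A (Sh v s)` then `Sh v s ∩ B` is not empty (CON).  Strong induction on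
`∑ b ∈ B ∩ Sh v s, (v⁻¹ * b).norm`: if some child `Sh (v * el s) t`, `t ≠ op s`, is crossed, its sum is smaller. -/
def S_LFA : Prop := ∀ (n : ℕ) (A : Set (FG n)), FC A → (∃ (v : FG n) (s : Lt n), X4 A (Sh v s)) →
  ∃ (v : FG n) (s : Lt n), X4 A (Sh v s) ∧ ∀ t, t ≠ op s → ¬ X4 A (Sh (v * el s) t)

/-- CYC: the Whitehead graph of `xx` is a cycle: at the vertex `pr (r+1)` the axis comes from
direction `op (lt r)` and leaves in direction `lt (r+1)`; for `r = 2i` this is the pair `(i,false), (i,true)`, for `r = 2i+1` it is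
`(i,false), (i+1,true)` (indices modulo `n + 2`).  Uses: nothing.  A partition of the letters different from `s0` in two nonempty
parts separates one of these pairs. -/
def S_CYC : Prop := ∀ (n : ℕ) (s0 : Lt n) (P : Lt n → Prop), (∃ t, t ≠ s0 ∧ P t) → (∃ t, t ≠ s0 ∧ ¬ P t) →
  ∃ r : ℕ, r < NN n ∧ op (lt n r) ≠ s0 ∧ lt n (r + 1) ≠ s0 ∧
    ((P (op (lt n r)) ∧ ¬ P (lt n (r + 1))) ∨ (¬ P (op (lt n r)) ∧ P (lt n (r + 1))))

/-- LEF: no wall crosses `H 0` and `H 1`.  Uses: SH, WAL, AXI, LFA, CYC.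
Suppose it does.  By monotonicity `A` crosses all `E_r = Sh (pr r) (lt r)`, `0 ≤ r ≤ NN`.  Take the leaf `(v, s)` of LFA, `u = v * el s`,
`s0 = op s`.  For `t ≠ s0` the corners `A ∩ (Sh u t)ᶜ`, `Aᶜ ∩ (Sh u t)ᶜ` are infinite since `(Sh v s)ᶜ ⊆ (Sh u t)ᶜ`; so `Aᶜ ∩ Sh u t` is
finite (call this `P t`) or `A ∩ Sh u t` is finite.  As `Sh v s = {u} ∪ ⋃_{t ≠ s0} Sh u t` meets `A` and `Aᶜ` in infinite sets, some `t ≠ s0` has
`P t` and some has not.  CYC gives `r`; put `w = pr (r+1)`, `g = u w⁻¹`.  `A` crosses `E_r` and so its complement `Sh w (op (lt r))`, and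
`E_(r+1) = Sh w (lt (r+1))`; so `tr g A` crosses `Sh u t₁`, `Sh u t₂`, `t₁ = op (lt r)`, `t₂ = lt (r+1)`, one of which is almost contained in `A`, the
other in `Aᶜ`.  So `A` crosses `tr g A`: contradiction to WAL. -/
def S_LEF : Prop := ∀ (n : ℕ) (A : Set (FG n)), Wall A → ∀ j : ℤ, X4 A (H n j) → ¬ X4 A (H n (j + 1))

/-- POS: position of a wall crossed by `xx`.  Uses: SH, CON, FCB, EVB, WAL, AXI, LEF.
(i) For `j` large `H j` contains no point of the finite letter coboundary of `A` (and of its neighbours), so by CON `H j ⊆ A`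
(as both contain `xx^m`, `m` large); for `j` very negative `(H j)ᶜ = Sh (xx^j el (0,true)) (0,false)` is contained in `Aᶜ`.
(ii) `A ∩ H j` and `Aᶜ ∩ (H j)ᶜ` are infinite, so if neither `Sub (H j) A` nor `Sub A (H j)` then `X4 A (H j)`.
(iii) Let `b` be minimal with `Sub (H b) A` (exists by (i): for very negative `j`, `Sub (H j) A` and `A ⊆ H (j+1)` contradict AXI);
`X4 A (H (b-1))` and `X4 A (H (b-2))` cannot both hold, so `Sub A (H (b-1))` or `Sub A (H (b-2))`; `c = b - 2`. -/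
def S_POS : Prop := ∀ (n : ℕ) (A : Set (FG n)), Wall A → Thru (xx n) A →
  ∃ c : ℤ, Sub (H n (c + 2)) A ∧ Sub A (H n c)

/-! ## Lines against the walls `H j` -/

/-- PZR: a line of the family different from that of `xx` crosses only walls `H j` of bounded diameter.
Uses: SH, FCB, EVB, WAL, AXI, AX1, HYP, CEN, POS.
Let `y = ψ xx` cross `H j` and `H (j + NN + 2)`.  Replacing `ψ` by its composition with a conjugation by a power of `xx` we may take `j = 0`
(or keep `j`).  One end of `y` is in `H (j+NN+2)` and the other one in `(H j)ᶜ` (if `Ev y (H (j+NN+2))` then `Ev y (H j)`, so `Ev y⁻¹ (H j)ᶜ` as `y` crosses `H j`; similarly for `y⁻¹`).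
Put `z = ψ⁻¹ xx`, `K i = im ψ⁻¹ (H i)`, so `tr z (K i) = K (i+1)`; the end of `xx` (or of `xx⁻¹`) is in `K (j+NN+2)`, the other end is in `(K j)ᶜ`.
HYP: a shadow `Sh v s` with `Thru z (Sh v s)`; POS for `im ψ (Sh v s)` and `xx = ψ z`: `K (c+2) ⊂ Sh v s ⊂ K c` up to finite sets, so
`K (c+k+2) ⊂ Sh (z^k v) s ⊂ K (c+k)`.  For the `NN + 1` values of `k` with `j ≤ c + k ≤ j + NN` the line of `xx` crosses `Sh (z^k v) s` in the same direction, so by AX1 (for
`Thru xx⁻¹` use the complement, `(Sh v s)ᶜ = Sh (v * el s) (op s)`) `z^k v` (resp. `z^k v * el s`) `= xx^i pr r`, `r < NN`.  Pigeonhole: two values `k ≠ k'` with the same `r`, so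
`z^(k'-k) = xx^e`; apply `ψ`: `xx^(k'-k) = y^e`, and CEN (2). -/
def S_PZR : Prop := ∀ (n : ℕ) (ψ : MulAut (FG n)) (j : ℤ), Cr (ψ (xx n)) (H n j) →
  Cr (ψ (xx n)) (H n (j + NN n + 2)) → Subgroup.zpowers (ψ (xx n)) = Subgroup.zpowers (xx n)

/-- KAP: the coordinate.  Uses: SH, CON, FCB, EVB, WAL, AXI, HYP, PZR.
For `y = ψ xx` (`y ≠ 1`) and all `j`: `Ev y (H j)` or `Ev y (H j)ᶜ`, the same for `y⁻¹`.  The sets `{j | Ev y (H j)}`, `{j | Ev y⁻¹ (H j)}` are downward closed.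
(a) Not both are all of ℤ: HYP gives a shadow `B` with `Thru y B`; for `j` large `H j` is contained in `B` or in `Bᶜ` (CON: `H j` avoids the two end points
of the edge of `B`), contradiction.  (b) Not both are empty, by the same argument with `(H j)ᶜ`, `j` very negative.  (c) If one is empty and the other is not,
or one is ℤ and the other is not, or if they differ by at least `NN + 2`, then `y` crosses `H j` and `H (j + NN + 2)` for some `j`: contradiction to PZR.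
So both have maxima, `κ := ` the smaller maximum. -/
def S_KAP : Prop := ∀ n : ℕ, ∃ κ : Subgroup (FG n) → ℤ, ∀ ψ : MulAut (FG n),
  Subgroup.zpowers (ψ (xx n)) ≠ Subgroup.zpowers (xx n) → ∀ k : ℤ, k = κ (Subgroup.zpowers (ψ (xx n))) →
    (∀ j, j ≤ k → Ins (ψ (xx n)) (H n j)) ∧ ¬ Ins (ψ (xx n)) (H n (k + 1)) ∧
    (∀ j, k + NN n + 3 ≤ j → Ins (ψ (xx n)) (H n j)ᶜ)

/-- The properties of the coordinate stated in KAP. -/
def IsK (n : ℕ) (κ : Subgroup (FG n) → ℤ) : Prop := ∀ ψ : MulAut (FG n),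
  Subgroup.zpowers (ψ (xx n)) ≠ Subgroup.zpowers (xx n) → ∀ k : ℤ, k = κ (Subgroup.zpowers (ψ (xx n))) →
    (∀ j, j ≤ k → Ins (ψ (xx n)) (H n j)) ∧ ¬ Ins (ψ (xx n)) (H n (k + 1)) ∧
    (∀ j, k + NN n + 3 ≤ j → Ins (ψ (xx n)) (H n j)ᶜ)

/-- The coordinate function, as a function on `LL n` we use `κ C`.  LIP: the coordinate is Lipschitz.
Uses: EVB, WAL, AXI, LEF.
Let `C = <y>`, `D = <z>`, `κ D ≥ κ C + NN + 5`.  For the three values `j = κ C + NN + 3, +4, +5`: `Ins y (H j)ᶜ`, `Ins z (H j)`.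
`A` crosses `y`: `A ∩ (H j)ᶜ`, `Aᶜ ∩ (H j)ᶜ` are infinite; `B` crosses `z`: `B ∩ H j`, `Bᶜ ∩ H j` are infinite.  If neither `X4 A (H j)` nor `X4 B (H j)` then one of
`A ∩ H j`, `Aᶜ ∩ H j` is finite and one of `B ∩ (H j)ᶜ`, `Bᶜ ∩ (H j)ᶜ` is finite, so a corner of `A`, `B` is finite and `A ≠ B`: contradiction.  By LEF and
monotonicity `A` crosses at most one `H j`, the same for `B`, but there are three values.  (`Cr`, `Ins` do not depend on the generator of the cyclic subgroup: `y = y'^(±1)`.) -/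
def S_LIP : Prop := ∀ (n : ℕ) (κ : Subgroup (FG n) → ℤ), IsK n κ → ∀ C ∈ LL n, ∀ D ∈ LL n,
  C ≠ Subgroup.zpowers (xx n) → D ≠ Subgroup.zpowers (xx n) → Rl C D → κ D ≤ κ C + NN n + 4

/-- SHI: the coordinate and the conjugation by `xx`.  Uses: EVB, AXI.  (`tr xx (H j) = H (j+1)`.) -/
def S_SHI : Prop := ∀ (n : ℕ) (κ : Subgroup (FG n) → ℤ), IsK n κ → ∀ C ∈ LL n,
  C ≠ Subgroup.zpowers (xx n) → κ (cj (xx n) C) = κ C + 1

/-- STA: the coordinate and the stabilizer of the line of `xx`.  Uses: EVB, WAL, AXI, POS.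
`s xx = xx^ε`.  `Ins (s y) (H j) ↔ Ins y (K j)`, `K j = im s⁻¹ (H j) = tr (xx^(ε j)) (K 0)`, and `xx` crosses `K 0` (`Thru xx (K 0)` if `ε = 1`, `Thru xx (K 0)ᶜ` if
`ε = -1`).  POS: for `ε = 1`, `H (c+j+2) ⊂ K j ⊂ H (c+j)` up to finite sets, so `|κ (s C) - (κ C - c)| ≤ 2`; for `ε = -1`,
`H (c-j+2) ⊂ (K j)ᶜ ⊂ H (c-j)`, so `|κ (s C) - (c - κ C)| ≤ NN + 3`. -/
def S_STA : Prop := ∀ (n : ℕ) (κ : Subgroup (FG n) → ℤ), IsK n κ → ∀ (s : MulAut (FG n)) (ε : ℤ),
  (ε = 1 ∨ ε = -1) → s (xx n) = xx n ^ ε → ∃ c : ℤ, ∀ C ∈ LL n, C ≠ Subgroup.zpowers (xx n) →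
    |κ (am s C) - (ε * κ C + c)| ≤ NN n + 4

/-- LEV: levels.  Uses: EVB, FCB, WAL, AXI, LEF (or less).  Two related lines on different sides of `H j` (or one of them crossing `H j`):
one of them is related to (or equal to) the line of `xx`.  If a line crosses `H j` it is related to that of `xx` by `A = B = H j`.  Otherwise (as in LIP) `A` or `B` crosses
`H j`; if `A` does, then `C` is related to `xx` by `A` and `H j`. -/
def S_LEV : Prop := ∀ (n : ℕ) (j : ℤ) (y z : FG n), y ≠ 1 → z ≠ 1 →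
  Rl (Subgroup.zpowers y) (Subgroup.zpowers z) → ¬ Ins y (H n j) → Ins z (H n j) →
  Rl (Subgroup.zpowers y) (Subgroup.zpowers (xx n)) ∨ Rl (Subgroup.zpowers z) (Subgroup.zpowers (xx n))

/-- GRC: the graph is connected, and every line is, up to translation, adjacent or equal to one of finitely many.
Uses: SH, FCB, EVB, WAL, AXI, HYP.
Every shadow `Sh v s` is crossed by a translate `cj g <xx>` (the letter `s` or `op s` occurs in `xx`; `Sh v s` and `Sh (v * el s) (op s)` are complementary).  Two lines of the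
family which cross the same wall are related.  If `t, t'` are the two directions of the axis at `pr (r+1)`, a translate of `xx` crosses `Sh v t` and `Sh v t'`; the
pairs `(op (lt r), lt (r+1))` connect all letters (they form a cycle), so all lines crossing shadows `Sh v t` with fixed `v` are in one component, and this
component is the same for `v` and `v * el s`.  Every line crosses a shadow (HYP). -/
def S_GRC : Prop := ∀ n : ℕ, (gL n).Connected ∧
  ∃ T : Finset (LL n), ∀ C ∈ LL n, ∃ (g : FG n) (D : LL n), cj g C = D ∧ ∃ E ∈ T, (gL n).dist D E ≤ 1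

/-- FIX: an automorphism which fixes `xx`, `a xx a⁻¹`, `a⁻¹ xx a` for all letters `a` is trivial.  Uses: CEN.
`s a = a xx^k` and `s a = xx^l a` by CEN, so `a xx^k = xx^l a`; if `k = 0` fine; otherwise taking the same for `a⁻¹ …` one gets that `a²`... precisely:
`a xx^k a⁻¹ = xx^l`, `l ≠ 0`; norms force `l = ± k` or use: `a xx a⁻¹` commutes with `xx^l`, so `a xx a⁻¹ ∈ <xx>` by CEN(1), it generates `<xx>` (it is `ψ xx`: CEN (2)), so `a ∈ <xx>` by CEN (3),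
contradiction to the norm. -/
def S_FIX : Prop := ∀ (n : ℕ) (s : MulAut (FG n)), s (xx n) = xx n →
  (∀ a : Lt n, s (el a * xx n * (el a)⁻¹) = el a * xx n * (el a)⁻¹) → s = 1

end Run7.h41.NF
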