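import Pool.Agent.Run7.h955.H5

set_option autoImplicit false

/-!
# Subfamilies of the relators of a rotation system

The windmill machine is applied to the lines `(a, g)` in a subset `I`, invariant under a subgroup
`Γ₀` which contains `P` and the relators of these lines.
-/

namespace Pool.Agent.H17R2

namespace Lines

variable {Γ V I : Type*} [Group Γ] [MulAction Γ V] [MulAction Γ I] (S : Lines Γ V I)

/-- The action of a subgroup on an invariant set of indices. -/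
@[reducible] def actSub (Γ₀ : Subgroup Γ) (J : Set I) (hJ : ∀ u ∈ Γ₀, ∀ i ∈ J, u • i ∈ J) :
    MulAction Γ₀ J where
  smul u i := ⟨(u : Γ) • (i : I), hJ u u.2 i i.2⟩
  one_smul i := Subtype.ext (one_smul Γ (i : I))
  mul_smul u v i := Subtype.ext (mul_smul (u : Γ) (v : Γ) (i : I))

/-- The restriction of a family of lines. -/
def restr (Γ₀ : Subgroup Γ) (J : Set I) (hJ : ∀ u ∈ Γ₀, ∀ i ∈ J, u • i ∈ J) :
    letI := actSub (Γ := Γ) (I := I) Γ₀ J hJ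
    Lines Γ₀ V J :=
  letI := actSub (Γ := Γ) (I := I) Γ₀ J hJ
  { d := S.d
    c := fun i => S.c i.1
    L := fun i => S.L i.1
    H := fun i => (S.H i.1).subgroupOf Γ₀
    K := S.K
    v0 := S.v0
    hK := S.hK
    d_self := S.d_self
    d_smul := fun g p q => S.d_smul g p q
    d_zero := S.d_zero
    d_step := S.d_step
    c_smul := fun g i p => S.c_smul g i.1 p
    c_lip := fun i => S.c_lip i.1
    c_unb := fun i => S.c_unb i.1
    L_smul := fun g i => S.L_smul g i.1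
    H_smul := fun g i h hh => S.H_smul g i.1 h hh
    hKL := fun i => S.hKL i.1
    htau := by
      intro i h hh h1
      exact S.htau i.1 h hh (fun h2 => h1 (Subtype.ext h2))
    dich := by
      intro i j
      rcases S.dich i.1 j.1 with ⟨h1, h2, h3⟩ | h
      · left
        exact ⟨by rw [h1], h2, h3⟩
      · exact Or.inr h }

/-- The weak Greendlinger lemma for a subfamily. -/
theorem windmill_sub (Γ₀ : Subgroup Γ) (J : Set I) (hJ : ∀ u ∈ Γ₀, ∀ i ∈ J, u • i ∈ J)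
    (hH : ∀ i ∈ J, S.H i ≤ Γ₀) (h : Γ) (hh : h ∈ ⨆ i : J, S.H i.1) (h1 : h ≠ 1) :
    ∃ i ∈ J, (S.K - 6) * S.L i ≤ S.K * |S.c i S.v0 - S.c i (h • S.v0)| := by
  letI := actSub (Γ := Γ) (I := I) Γ₀ J hJ
  have e : (⨆ i : J, (S.H i.1).subgroupOf Γ₀).map Γ₀.subtype = ⨆ i : J, S.H i.1 := by
    rw [Subgroup.map_iSup]
    refine iSup_congr fun i => ?_
    rw [Subgroup.subgroupOf_map_subtype]
    exact inf_eq_left.mpr (hH i.1 i.2)
  rw [← e] at hh
  obtain ⟨y, hy, rfl⟩ := hh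
  have hy1 : y ≠ 1 := by
    rintro rfl
    exact h1 rfl
  obtain ⟨i, hi⟩ := (S.restr Γ₀ J hJ).windmill y hy hy1
  exact ⟨i.1, i.2, hi⟩

end Lines

end Pool.Agent.H17R2

namespace Run7.h955

namespace RotSys

variable {G V : Type*} [Group G] [MulAction G V] {R : RotSys G V}

namespace Sys

variable {A : Type*} (S : R.Sys A)

/-- A family of lines with a group acting on it. -/
structure Fam where
  Γ₀ : Subgroup G
  I : Set (Idx A G)
  hP : R.P ≤ Γ₀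
  hI : ∀ u ∈ Γ₀, ∀ i ∈ I, u • i ∈ I
  hH : ∀ i ∈ I, i.g * S.h i.a * i.g⁻¹ ∈ Γ₀

namespace Fam

variable {S} (T : S.Fam)

/-- The group generated by the relators of the family. -/
def M : Subgroup G := ⨆ i : T.I, S.Hg i.1

lemma h_mem {i : Idx A G} (hi : i ∈ T.I) (q : ℤ) : (i.g * S.h i.a * i.g⁻¹) ^ q ∈ T.M :=
  (le_iSup (fun i : T.I => S.Hg i.1) ⟨i, hi⟩) (Subgroup.zpow_mem _ (Subgroup.mem_zpowers _) q)

lemma conj_mem {u x : G} (hu : u ∈ T.Γ₀) (hx : x ∈ T.M) : u * x * u⁻¹ ∈ T.M := by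
  unfold M at hx
  induction hx using Subgroup.iSup_induction' with
  | hp i y hy =>
    obtain ⟨q, rfl⟩ := Subgroup.mem_zpowers_iff.mp hy
    have := T.h_mem (T.hI u hu i.1 i.2) q
    rw [smul_a, smul_g] at this
    rw [← conj_zpow]
    have e : u * (i.1.g * S.h i.1.a * i.1.g⁻¹) * u⁻¹ = u * i.1.g * S.h i.1.a * (u * i.1.g)⁻¹ := by
      group
    rw [e]
    exact this
  | h1 => simpa using T.M.one_mem
  | hmul x y _ _ hx hy =>
    have e : u * (x * y) * u⁻¹ = (u * x * u⁻¹) * (u * y * u⁻¹) := by group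
    rw [e]
    exact T.M.mul_mem hx hy

lemma conjP {p x : G} (hp : p ∈ R.P) (hx : x ∈ T.M) : p * x * p⁻¹ ∈ T.M := T.conj_mem (T.hP hp) hx

lemma M_le : T.M ≤ T.Γ₀ := by
  refine iSup_le fun i => ?_
  unfold Hg
  rw [Subgroup.zpowers_le]
  exact T.hH i.1 i.2

lemma windmill {K : ℤ} (hK : 20 ≤ K) (hKm : K * (2 * R.r + 8) < S.m) (v0 : V) (h : G)
    (hh : h ∈ T.M) (h1 : h ≠ 1) : ∃ i ∈ T.I,
    (K - 6) * S.m ≤ K * |S.cf i v0 - S.cf i (h • v0)| := by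
  refine (S.lines K hK hKm v0).windmill_sub T.Γ₀ T.I T.hI ?_ h hh h1
  intro i hi
  change S.Hg i ≤ T.Γ₀
  unfold Hg
  rw [Subgroup.zpowers_le]
  exact T.hH i hi

/-- (★) -/
lemma star {K : ℤ} (hK : 20 ≤ K) (hKm : K * (2 * R.r + 8) < S.m) {n : ℤ}
    (hn : S.C + 2 * R.T < n) (hgap : ∀ a j, j < S.m → 4 * R.T + 2 * S.E < |S.e a j - n|)
    {g : G} (hg : ∀ p ∈ R.P, g * p * g⁻¹ * p⁻¹ ∈ T.M) (u : G)
    (hne : g • u • R.x0 ≠ u • R.x0) :
    ∃ i ∈ T.I, (K - 6) * S.m ≤ K * (|S.cf i (u • R.x0) - S.cf i (g • u • R.x0)| + 1) := by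
  have hT := R.T_pos
  have hC := S.hC
  have hP : R.P.Normal := R.Pn
  have hpP : u * R.ρ ^ n * u⁻¹ ∈ R.P := hP.conj_mem _ (R.P.zpow_mem R.ρP n) u
  have ha := hg _ hpP
  set y := u • R.x0 with hy
  set p := u * R.ρ ^ n * u⁻¹ with hp
  have hpy : p⁻¹ • y = y := by
    rw [inv_smul_eq_iff, hp, hy, R.rot_fix]
  have hgu : g • y = (g * u) • R.x0 := by rw [hy, mul_smul]
  have hrot : g * p * g⁻¹ = (g * u) * R.ρ ^ n * (g * u)⁻¹ := by rw [hp]; group
  have hrotP : (g * u) * R.ρ ^ n * (g * u)⁻¹ ∈ R.P :=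
    hP.conj_mem _ (R.P.zpow_mem R.ρP n) _
  have hay : (g * p * g⁻¹ * p⁻¹) • y = ((g * u) * R.ρ ^ n * (g * u)⁻¹) • y := by
    rw [mul_smul, hpy, hrot]
  have hyne : y ≠ (g * u) • R.x0 := by rw [← hgu]; exact hne.symm
  have hk := R.k_rot (g * u) n y hyne
  set q := ((g * u) * R.ρ ^ n * (g * u)⁻¹) • y with hq
  have hqne : q ≠ (g * u) • R.x0 := R.rot_ne _ _ hyne
  have ha1 : g * p * g⁻¹ * p⁻¹ ≠ 1 := by
    intro h
    rw [h, one_smul] at hay
    rw [← hay] at hk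
    omega
  obtain ⟨i, hiI, hi⟩ := T.windmill hK hKm y _ ha ha1
  rw [hay] at hi
  have habs : |R.k (g * u) y - R.k (g * u) q| = n := by
    rw [hk]
    have : R.k (g * u) y - (R.k (g * u) y + n) = -n := by ring
    rw [this, abs_neg, abs_of_nonneg (by omega)]
  have hrt : ∀ l, 4 * R.T < |(n - |(S.ax i.a i.g).rt l|)| := by
    intro l
    have h1 := S.rt_pos i.a i.g l
    rw [abs_of_nonneg (by omega : 0 ≤ (S.ax i.a i.g).rt l)]
    obtain ⟨q', j, hj, rfl⟩ := S.exists_rep l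
    have h2 := S.rt_ax i.a i.g q' j hj
    have h3 := hgap i.a j hj
    rw [abs_le] at h2
    rcases abs_cases (S.e i.a j - n) with h4 | h4
    · apply lt_of_lt_of_le _ (neg_le_abs _); linarith
    · apply lt_of_lt_of_le _ (le_abs_self _); linarith
  have hmid1 : ¬ (S.cf i y + 1 < S.cf i (g • y) ∧ S.cf i (g • y) < S.cf i q - 1) := by
    rintro ⟨h1, h2⟩
    rw [hgu] at h1 h2
    exact (S.ax i.a i.g).mid (S.tame_ax i.a i.g) hyne hqne hC (by rw [habs]; exact hn)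
      (by rw [habs]; exact hrt) h1 h2
  have hmid2 : ¬ (S.cf i q + 1 < S.cf i (g • y) ∧ S.cf i (g • y) < S.cf i y - 1) := by
    rintro ⟨h1, h2⟩
    rw [hgu] at h1 h2
    rw [abs_sub_comm] at habs
    exact (S.ax i.a i.g).mid (S.tame_ax i.a i.g) hqne hyne hC (by rw [habs]; exact hn)
      (by rw [habs]; exact hrt) h1 h2
  have hcase : |S.cf i y - S.cf i q| ≤ |S.cf i y - S.cf i (g • y)| + 1 ∨
      |S.cf i y - S.cf i q| ≤ |S.cf i q - S.cf i (g • y)| + 1 := by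
    rcases abs_cases (S.cf i y - S.cf i q) with h1 | h1 <;>
    rcases abs_cases (S.cf i y - S.cf i (g • y)) with h2 | h2 <;>
    rcases abs_cases (S.cf i q - S.cf i (g • y)) with h3 | h3 <;> omega
  rcases hcase with h | h
  · exact ⟨i, hiI, by nlinarith⟩
  · refine ⟨((g * u) * R.ρ ^ n * (g * u)⁻¹)⁻¹ • i,
      T.hI _ (T.hP (R.P.inv_mem hrotP)) i hiI, ?_⟩
    have e1 : S.cf (((g * u) * R.ρ ^ n * (g * u)⁻¹)⁻¹ • i) y = S.cf i q := by
      rw [← S.cf_smul ((g * u) * R.ρ ^ n * (g * u)⁻¹) _ y, smul_inv_smul]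
    have e2 : S.cf (((g * u) * R.ρ ^ n * (g * u)⁻¹)⁻¹ • i) (g • y) = S.cf i (g • y) := by
      rw [← S.cf_smul ((g * u) * R.ρ ^ n * (g * u)⁻¹) _ (g • y), smul_inv_smul, hgu, R.rot_fix]
    rw [e1, e2]
    nlinarith

/-- elements commuting with `P` modulo `M` can be moved into the stabiliser of a special vertex -/
lemma exists_fix {K : ℤ} (hK : 20 ≤ K) (hKm : K * (2 * R.r + 8) < S.m)
    (hs : 6 * S.m * S.D + 3 * K * S.D + 3 * K < (K - 6) * S.m) {n : ℤ}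
    (hn : S.C + 2 * R.T < n) (hgap : ∀ a j, j < S.m → 4 * R.T + 2 * S.E < |S.e a j - n|)
    {g : G} (hg : ∀ p ∈ R.P, g * p * g⁻¹ * p⁻¹ ∈ T.M) (u : G) :
    ∃ h ∈ T.M, (h * g) • u • R.x0 = u • R.x0 := by
  have hg' : ∀ h ∈ T.M, ∀ p ∈ R.P, (h * g) * p * (h * g)⁻¹ * p⁻¹ ∈ T.M := by
    intro h hh p hp
    have e : (h * g) * p * (h * g)⁻¹ * p⁻¹ = h * (g * p * g⁻¹ * p⁻¹) * (p * h⁻¹ * p⁻¹) := by group
    rw [e]
    exact T.M.mul_mem (T.M.mul_mem hh (hg p hp)) (T.conjP hp (T.M.inv_mem hh))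
  -- minimal distance
  have hex2 : ∃ h ∈ T.M, ∀ h' ∈ T.M, R.d (u • R.x0) ((h * g) • u • R.x0) ≤
      R.d (u • R.x0) ((h' * g) • u • R.x0) := by
    have hex : ∃ N : ℕ, ∃ h ∈ T.M, (R.d (u • R.x0) ((h * g) • u • R.x0)).toNat = N :=
      ⟨_, 1, T.M.one_mem, rfl⟩
    classical
    obtain ⟨h, hh, hN⟩ := Nat.find_spec hex
    refine ⟨h, hh, fun h' hh' => ?_⟩
    have := Nat.find_min' hex (m := (R.d (u • R.x0) ((h' * g) • u • R.x0)).toNat) ⟨h', hh', rfl⟩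
    have h0 := R.d_nonneg (u • R.x0) ((h' * g) • u • R.x0)
    have h00 := R.d_nonneg (u • R.x0) ((h * g) • u • R.x0)
    omega
  obtain ⟨h, hh, hmin⟩ := hex2
  refine ⟨h, hh, ?_⟩
  by_contra hne
  obtain ⟨i, hiI, hi⟩ := T.star hK hKm hn hgap (hg' h hh) u hne
  set y := u • R.x0 with hy
  set y' := (h * g) • y with hy'
  have hshort : ∃ w ∈ T.M, R.d y (w • y') < R.d y y' := by
    rcases lt_trichotomy (S.cf i y) (S.cf i y') with h1 | h1 | h1
    · exact ⟨_, T.h_mem hiI (-1), S.shorten_aux hK hKm hs y y' i hi h1⟩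
    · exfalso
      rw [h1, sub_self, abs_zero] at hi
      have hr : 0 ≤ (R.r : ℤ) := Int.natCast_nonneg _
      nlinarith
    · rw [abs_sub_comm] at hi
      have h2 := S.shorten_aux hK hKm hs y' y i hi h1
      refine ⟨((i.g * S.h i.a * i.g⁻¹) ^ (-1 : ℤ))⁻¹, T.M.inv_mem (T.h_mem hiI (-1)), ?_⟩
      rw [R.d_comm, R.d_smul_inv, R.d_comm y y']
      exact h2
  obtain ⟨w, hw, hlt⟩ := hshort
  have hm2 := hmin (w * h) (T.M.mul_mem hw hh)
  have e : (w * h * g) • y = w • y' := by rw [hy', smul_smul w, mul_assoc]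
  rw [e] at hm2
  omega

/-- The centraliser property. -/
theorem centr {K : ℤ} (hK : 20 ≤ K) (hKm : K * (2 * R.r + 8) < S.m)
    (hs : 6 * S.m * S.D + 3 * K * S.D + 3 * K < (K - 6) * S.m) {n : ℤ}
    (hn : S.C + 2 * R.T < n) (hgap : ∀ a j, j < S.m → 4 * R.T + 2 * S.E < |S.e a j - n|)
    (hr1 : ∀ j, K * (2 * R.d (R.b 0 • R.x0) (R.b j • R.x0) + 1) < (K - 6) * S.m)
    (hr2 : ∀ j, K * (2 * R.d (R.b 0 • R.x0)
      ((R.b j * R.ρ ^ (R.T + 1) * (R.b j)⁻¹) • R.b (j + 1) • R.x0) + 1) < (K - 6) * S.m)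
    {g : G} (hg : ∀ p ∈ R.P, g * p * g⁻¹ * p⁻¹ ∈ T.M) : g ∈ T.M := by
  have hT := R.T_pos
  obtain ⟨h, hh, hfix⟩ := T.exists_fix hK hKm hs hn hgap hg (R.b 0)
  have hg' : ∀ p ∈ R.P, (h * g) * p * (h * g)⁻¹ * p⁻¹ ∈ T.M := by
    intro p hp
    have e : (h * g) * p * (h * g)⁻¹ * p⁻¹ = h * (g * p * g⁻¹ * p⁻¹) * (p * h⁻¹ * p⁻¹) := by group
    rw [e]
    exact T.M.mul_mem (T.M.mul_mem hh (hg p hp)) (T.conjP hp (T.M.inv_mem hh))
  set f := h * g with hf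
  have hfixall : ∀ u : G, K * (2 * R.d (R.b 0 • R.x0) (u • R.x0) + 1) < (K - 6) * S.m →
      f • u • R.x0 = u • R.x0 := by
    intro u hu
    by_contra hne
    obtain ⟨i, -, hi⟩ := T.star hK hKm hn hgap hg' u hne
    have h1 := S.cf_lip i (u • R.x0) (f • u • R.x0)
    have h2 := R.d_tri (u • R.x0) (R.b 0 • R.x0) (f • u • R.x0)
    have h3 : R.d (R.b 0 • R.x0) (f • u • R.x0) = R.d (R.b 0 • R.x0) (u • R.x0) := by
      conv_lhs => rw [← hfix]
      rw [R.d_smul]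
    have h4 := R.d_comm (u • R.x0) (R.b 0 • R.x0)
    nlinarith
  have hf1 : f = 1 := by
    apply R.F
    intro j
    have e1 := hfixall (R.b j) (hr1 j)
    have e2 := hfixall (R.b (j + 1)) (hr1 (j + 1))
    have e3 := hfixall ((R.b j * R.ρ ^ (R.T + 1) * (R.b j)⁻¹) * R.b (j + 1)) (by
      rw [mul_smul]; exact hr2 j)
    rw [mul_smul _ (R.b (j + 1))] at e3
    have hx : (f * R.b j) • R.x0 = R.b j • R.x0 := by rw [mul_smul, e1]
    obtain ⟨ε, hε, h1, c, h2⟩ := R.k_A3 hx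
    have hp1 : R.b (j + 1) • R.x0 ≠ R.b j • R.x0 := (R.bne j).symm
    have hp2 := R.rot_ne (R.b j) (R.T + 1) hp1
    have h3 := h2 (R.b (j + 1) • R.x0) (by rw [hx]; exact hp1)
    have h4 := h2 ((R.b j * R.ρ ^ (R.T + 1) * (R.b j)⁻¹) • R.b (j + 1) • R.x0) (by
      rw [hx]; exact hp2)
    have e4 : R.k (f * R.b j) (R.b (j + 1) • R.x0) = R.k (R.b j) (R.b (j + 1) • R.x0) := by
      conv_lhs => rw [← e2]
      rw [R.k_smul]
    have e5 : R.k (f * R.b j) ((R.b j * R.ρ ^ (R.T + 1) * (R.b j)⁻¹) • R.b (j + 1) • R.x0) =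
        R.k (R.b j) ((R.b j * R.ρ ^ (R.T + 1) * (R.b j)⁻¹) • R.b (j + 1) • R.x0) := by
      conv_lhs => rw [← e3]
      rw [R.k_smul]
    rw [e4] at h3
    rw [e5, R.k_rot _ _ _ hp1] at h4
    rcases hε with rfl | rfl
    · rw [zpow_one] at h1
      calc f * (R.b j * R.ρ * (R.b j)⁻¹) = (f * R.b j * R.ρ * (f * R.b j)⁻¹) * f := by group
        _ = _ := by rw [← h1]
    · exfalso
      rw [abs_le] at h3 h4
      linarith
  have : g = h⁻¹ * f := by rw [hf]; group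
  rw [this, hf1, mul_one]
  exact T.M.inv_mem hh

/-- Independence of the lines. -/
theorem indep {K : ℤ} (hK : 20 ≤ K) (hKm : K * (2 * R.r + 8) < S.m) (a : A) (g : G)
    (h : g * S.h a * g⁻¹ ∈ T.M) : ∃ q : ℤ, (⟨a, g * S.h a ^ q⟩ : Idx A G) ∈ T.I := by
  have hm := S.mpos
  have hr : (0 : ℤ) ≤ R.r := Int.natCast_nonneg _
  set ξ := S.ax a g with hξ
  have hmove : (g * S.h a * g⁻¹) • ξ.x 0 = ξ.x S.m := by
    change _ • (S.γ a g 0 • R.x0) = S.γ a g S.m • R.x0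
    have h3 := S.γ_shift a g 0 1
    have e : (0 : ℤ) + 1 * (S.m : ℤ) = S.m := by ring
    rw [e, zpow_one] at h3
    rw [h3, smul_smul]
  have h1 : g * S.h a * g⁻¹ ≠ 1 := by
    intro h2
    rw [h2, one_smul] at hmove
    have := ξ.x_inj hmove
    omega
  obtain ⟨i, hiI, hi⟩ := T.windmill hK hKm (ξ.x 0) _ h h1
  rw [hmove] at hi
  have hbig : 2 * (R.r : ℤ) + 6 < |S.cf i (ξ.x 0) - S.cf i (ξ.x S.m)| := by
    by_contra hcon
    push Not at hcon
    nlinarith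
  have key : i.a = a ∧ ∃ q : ℤ, i.g = g * S.h a ^ q := by
    rcases lt_abs.mp hbig with h2 | h2
    · exact S.same_of_overlap i.a a i.g g (j := S.m) (l := 0) h2
    · refine S.same_of_overlap i.a a i.g g (j := 0) (l := S.m) ?_
      have : S.cf i (ξ.x S.m) - S.cf i (ξ.x 0) = -(S.cf i (ξ.x 0) - S.cf i (ξ.x S.m)) := by ring
      change 2 * (R.r : ℤ) + 6 < S.cf i (ξ.x S.m) - S.cf i (ξ.x 0)
      rw [this]; exact h2
  obtain ⟨ha, q, hq⟩ := key
  refine ⟨q, ?_⟩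
  have : (⟨a, g * S.h a ^ q⟩ : Idx A G) = i := by
    cases i
    simp only at ha hq
    rw [ha, hq]
  rw [this]
  exact hiI

end Fam

end Sys

end RotSys

end Run7.h955
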