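import Pool.Agent.Run7.h41.NF.Ind1

set_option autoImplicit false

/-!
# The main theorem for subfamilies
-/

namespace Run7.h955

namespace RotSys

variable {G V : Type*} [Group G] [MulAction G V] (R : RotSys G V)

/-- Relators for a countable family of elements of `G`, whose conjugates are independent and such that
all groups generated by families of conjugates have the centraliser property. -/
theorem main2 {A : Type*} [Countable A] (φ : A → G) :
    ∃ h : A → G, (∀ a, ∃ p ∈ R.P, h a = p * φ a) ∧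
      ∀ (Γ₀ : Subgroup G) (I : Set (A × G)), R.P ≤ Γ₀ →
        (∀ u ∈ Γ₀, ∀ a g, (a, g) ∈ I → (a, u * g) ∈ I) →
        (∀ a g, (a, g) ∈ I → g * h a * g⁻¹ ∈ Γ₀) →
        (∀ g : G, (∀ p ∈ R.P, g * p * g⁻¹ * p⁻¹ ∈
            Subgroup.closure {x | ∃ a g, (a, g) ∈ I ∧ x = g * h a * g⁻¹}) →
          g ∈ Subgroup.closure {x | ∃ a g, (a, g) ∈ I ∧ x = g * h a * g⁻¹}) ∧
        (∀ a g, g * h a * g⁻¹ ∈
            Subgroup.closure {x | ∃ a g, (a, g) ∈ I ∧ x = g * h a * g⁻¹} →
          ∃ q : ℤ, (a, g * h a ^ q) ∈ I) := by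
  classical
  have hT := R.T_pos
  have hP : R.P.Normal := R.Pn
  obtain ⟨C1, hC1⟩ := R.exists_junction
  obtain ⟨C2, hC2⟩ := R.exists_unif (fun a b C => ∀ g : G, a • R.x0 ≠ g • R.x0 →
    b • R.x0 ≠ g • R.x0 → |R.k g (a • R.x0) - R.k g (b • R.x0)| ≤ C)
    (fun a b => R.exists_bound (a • R.x0) (b • R.x0))
    (fun a b C C' h h1 g h2 h3 => le_trans (h1 g h2 h3) h)
  obtain ⟨E1, hE1⟩ := R.exists_unif (fun a b C => |R.κ (a⁻¹ • b • R.x0)| ≤ C)
    (fun a b => ⟨_, le_rfl⟩) (fun a b C C' h h1 => le_trans h1 h)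
  obtain ⟨E2, hE2⟩ := R.exists_unif (fun a b C => |R.κ (b⁻¹ • a • R.x0)| ≤ C)
    (fun a b => ⟨_, le_rfl⟩) (fun a b C C' h h1 => le_trans h1 h)
  obtain ⟨D1, hD1⟩ := R.exists_unif (fun a b C => R.d (a • R.x0) (b • R.x0) ≤ C)
    (fun a b => ⟨_, le_rfl⟩) (fun a b C C' h h1 => le_trans h1 h)
  obtain ⟨L1, hL1⟩ := R.exists_unif (fun a b C => R.d (R.b 0 • R.x0) (a • R.x0) ≤ C)
    (fun a b => ⟨_, le_rfl⟩) (fun a b C C' h h1 => le_trans h1 h)
  obtain ⟨L2, hL2⟩ := R.exists_unif (fun a b C => R.d (R.b 0 • R.x0)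
      ((a * R.ρ ^ (R.T + 1) * a⁻¹) • b • R.x0) ≤ C)
    (fun a b => ⟨_, le_rfl⟩) (fun a b C C' h h1 => le_trans h1 h)
  have hE10 : 0 ≤ E1 := le_trans (abs_nonneg _) (hE1 0)
  have hE20 : 0 ≤ E2 := le_trans (abs_nonneg _) (hE2 0)
  have hD10 : 0 ≤ D1 := le_trans (R.d_nonneg _ _) (hD1 0)
  have hL10 : 0 ≤ L1 := le_trans (R.d_nonneg _ _) (hL1 0)
  have hL20 : 0 ≤ L2 := le_trans (R.d_nonneg _ _) (hL2 0)
  set C : ℤ := |C1| + |C2| with hC
  have hC0 : 0 ≤ C := by positivity
  have hCC1 : C1 ≤ C := by have := le_abs_self C1; have := abs_nonneg C2; omega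
  have hCC2 : C2 ≤ C := by have := le_abs_self C2; have := abs_nonneg C1; omega
  set E : ℤ := E1 + E2 with hE
  set D : ℤ := D1 + C with hD
  set K : ℤ := 6 * D + 30 with hK
  set L : ℤ := L1 + L2 with hL
  have hr := R.rpos
  have hr' : (1 : ℤ) ≤ R.r := by exact_mod_cast hr
  have hD0 : 0 ≤ D := by omega
  have hL0 : 0 ≤ L := by omega
  set M0 : ℤ := K * (2 * R.r + 8) + K * (2 * L + 1) + 3 * K * (D + 1) + 3 with hM0
  have hK20 : 20 ≤ K := by omega
  have hM0pos : 0 ≤ M0 := by positivity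
  set M : ℕ := M0.toNat + 1 with hM
  have hMM0 : (M : ℤ) = M0 + 1 := by rw [hM]; push_cast; omega
  set B : ℤ := C + 8 * R.T + 4 * E + 1 with hB
  have hB0 : 0 < B := by positivity
  obtain ⟨ι, hι⟩ := exists_injective_nat (A × ℕ)
  choose pj hpj1 hpj2 hpj3 hpj4 hpj5 hpj6 using hC1
  have hlast : R.b (R.r * M - 1) = R.b (R.r - 1) := by
    have e : R.r * M - 1 = (R.r - 1) + R.r * M0.toNat := by
      rw [hM, Nat.mul_succ]; omega
    rw [e]
    generalize M0.toNat = n
    induction n with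
    | zero => simp
    | succ n ih => rw [Nat.mul_succ, ← add_assoc, R.bper, ih]
  have hrM : (M : ℤ) ≤ ((R.r * M : ℕ) : ℤ) := by
    push_cast
    nlinarith
  let S : R.Sys A :=
    { m := R.r * M
      M := M
      hm := rfl
      three := by
        have h1 : (3 : ℤ) ≤ (R.r * M : ℕ) := by nlinarith
        exact_mod_cast h1
      e := fun a j => 2 * B * ((ι (a, j) : ℤ) + 1)
      t := fun a => pj (φ a) * φ a
      C := C
      hC := hC0
      E := E
      hE := by omega
      D := D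
      big := by
        intro a j _
        have : 0 ≤ (ι (a, j) : ℤ) := Int.natCast_nonneg _
        nlinarith
      gap := by
        intro a a' j j' _ _ h
        by_contra hne
        have h1 : ι (a, j) ≠ ι (a', j') := by
          intro h2
          apply hne
          have h3 := hι h2
          simpa using h3
        have h2 : 1 ≤ |(ι (a, j) : ℤ) - ι (a', j')| := by
          apply Int.one_le_abs
          omega
        have h3 : 2 * B * ((ι (a, j) : ℤ) + 1) - 2 * B * ((ι (a', j') : ℤ) + 1) =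
          2 * B * ((ι (a, j) : ℤ) - ι (a', j')) := by ring
        rw [h3, abs_mul, abs_of_nonneg (by omega : 0 ≤ 2 * B)] at h
        nlinarith
      j1 := by
        intro a
        rw [hlast]
        exact hpj2 (φ a)
      j2 := by
        intro a
        rw [hlast, hpj3 (φ a), abs_zero]
        omega
      j3 := by
        intro a
        rw [hlast, hpj4 (φ a), abs_zero]
        omega
      j4 := by
        intro a g h1 h2
        rw [hlast] at h1 ⊢
        exact le_trans (hpj5 (φ a) g h1 h2) hCC1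
      j5 := by
        intro a
        rw [hlast]
        have := hpj6 (φ a)
        omega
      i1 := fun j => le_trans (hE1 j) (by omega)
      i2 := fun j => le_trans (hE2 j) (by omega)
      i4 := fun j g h1 h2 => le_trans (hC2 j g h1 h2) hCC2
      i5 := fun j => le_trans (hD1 j) (by omega) }
  have hSm : (S.m : ℤ) = ((R.r * M : ℕ) : ℤ) := rfl
  have hmM : M0 + 1 ≤ (S.m : ℤ) := by rw [hSm, ← hMM0]; exact hrM
  have hzP : ∀ (a : A) (j : ℕ), S.z a j ∈ R.P := by
    intro a j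
    induction j with
    | zero => exact R.P.one_mem
    | succ j ih =>
      exact R.P.mul_mem ih (hP.conj_mem _ (R.P.zpow_mem R.ρP _) _)
  have hh : ∀ a : A, ∃ p ∈ R.P, S.h a = p * φ a := by
    intro a
    refine ⟨S.z a S.m * pj (φ a), R.P.mul_mem (hzP a _) (hpj1 (φ a)), ?_⟩
    change S.z a S.m * (pj (φ a) * φ a) = _
    rw [mul_assoc]
  have h1 : K * (2 * R.r + 8) < S.m := by
    have : 0 ≤ K * (2 * L + 1) := by positivity
    have : 0 ≤ 3 * K * (D + 1) := by positivity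
    omega
  have h2 : K * (2 * L + 1) < S.m := by
    have : 0 ≤ K * (2 * (R.r : ℤ) + 8) := by positivity
    have : 0 ≤ 3 * K * (D + 1) := by positivity
    omega
  have h3 : 3 * K * (D + 1) < S.m := by
    have : 0 ≤ K * (2 * (R.r : ℤ) + 8) := by positivity
    have : 0 ≤ K * (2 * L + 1) := by positivity
    omega
  have hm0 : 0 < (S.m : ℤ) := S.mpos
  refine ⟨S.h, hh, ?_⟩
  intro Γ₀ I hP0 hI hH
  let T : S.Fam :=
    { Γ₀ := Γ₀
      I := {i | (i.a, i.g) ∈ I}
      hP := hP0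
      hI := fun u hu i hi => hI u hu i.a i.g hi
      hH := fun i hi => hH i.a i.g hi }
  have hTM : Subgroup.closure {x | ∃ a g, (a, g) ∈ I ∧ x = g * S.h a * g⁻¹} = T.M := by
    apply le_antisymm
    · rw [Subgroup.closure_le]
      rintro x ⟨a, g, hag, rfl⟩
      have := T.h_mem (i := ⟨a, g⟩) hag 1
      rwa [zpow_one] at this
    · refine iSup_le fun i => ?_
      unfold Sys.Hg
      rw [Subgroup.zpowers_le]
      exact Subgroup.subset_closure ⟨i.1.a, i.1.g, i.2, rfl⟩
  rw [hTM]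
  refine ⟨?_, fun a g h => T.indep hK20 h1 a g h⟩
  intro g hg
  refine T.centr hK20 h1 ?_ (n := B) ?_ ?_ ?_ ?_ hg
  · change 6 * (S.m : ℤ) * D + 3 * K * D + 3 * K < (K - 6) * S.m
    have e : (K - 6) * (S.m : ℤ) = 6 * S.m * D + 24 * S.m := by rw [hK]; ring
    rw [e]
    nlinarith
  · change C + 2 * R.T < B
    omega
  · intro a j _
    change 4 * R.T + 2 * E < |2 * B * ((ι (a, j) : ℤ) + 1) - B|
    apply lt_of_lt_of_le _ (le_abs_self _)
    have : 0 ≤ (ι (a, j) : ℤ) := Int.natCast_nonneg _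
    nlinarith
  · intro j
    have h4 : R.d (R.b 0 • R.x0) (R.b j • R.x0) ≤ L := le_trans (hL1 j) (by omega)
    have h5 : K * (2 * R.d (R.b 0 • R.x0) (R.b j • R.x0) + 1) ≤ K * (2 * L + 1) :=
      mul_le_mul_of_nonneg_left (by omega) (by omega)
    nlinarith
  · intro j
    have h4 := le_trans (hL2 j) (by omega : L2 ≤ L)
    have h5 := mul_le_mul_of_nonneg_left (by linarith : 2 * R.d (R.b 0 • R.x0)
      ((R.b j * R.ρ ^ (R.T + 1) * (R.b j)⁻¹) • R.b (j + 1) • R.x0) + 1 ≤ 2 * L + 1)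
      (by omega : 0 ≤ K)
    nlinarith

end RotSys

end Run7.h955
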