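import Pool.Agent.Run7.h41.NF.Ind2

set_option autoImplicit false

/-!
# Sections of the automorphism group of a group with a rotation system
-/

namespace Run7.h41.IND

open Run7.h955

variable {π : Type} [Group π]

theorem conj_map (f : MulAut π) (y : π) : f * MulAut.conj y * f⁻¹ = MulAut.conj (f y) := by
  ext z
  simp [MulAut.mul_apply, MulAut.conj_apply]

theorem conj_conj (g u : π) : (MulAut.conj (g * u * g⁻¹) : MulAut π) =
    MulAut.conj g * MulAut.conj u * (MulAut.conj g)⁻¹ := by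
  rw [map_mul, map_mul, map_inv]

/-- The group generated by the elements `g h(a) g⁻¹`, `(a, g) ∈ I`. -/
def XI (h : MulAut π → MulAut π) (I : Set (MulAut π × MulAut π)) : Subgroup (MulAut π) :=
  Subgroup.closure {x | ∃ a g, (a, g) ∈ I ∧ x = g * h a * g⁻¹}

variable (π) in
/-- The conclusion of the theorem on rotation systems. -/
def Ind : Prop :=
  ∃ h : MulAut π → MulAut π, (∀ f, ∃ y : π, h f = MulAut.conj y * f) ∧
    ∀ (Γ₀ : Subgroup (MulAut π)) (I : Set (MulAut π × MulAut π)),
      (∀ y : π, MulAut.conj y ∈ Γ₀) → (∀ u ∈ Γ₀, ∀ a g, (a, g) ∈ I → (a, u * g) ∈ I) →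
      (∀ a g, (a, g) ∈ I → g * h a * g⁻¹ ∈ Γ₀) →
      (∀ f : MulAut π, (∀ y : π, MulAut.conj (f y * y⁻¹) ∈ XI h I) → f ∈ XI h I) ∧
      (∀ a g, g * h a * g⁻¹ ∈ XI h I → ∃ q : ℤ, (a, g * h a ^ q) ∈ I)

theorem ind_of_rot {G V : Type} [Group G] [MulAction G V] (R : RotSys G V) (e : G ≃* MulAut π)
    (hR : ∀ g : G, g ∈ R.P ↔ e g ∈ (MulAut.conj : π →* MulAut π).range)
    [Countable (MulAut π)] : Ind π := by
  obtain ⟨h, h1, h2⟩ := R.main2 (A := MulAut π) (fun f => e.symm f)
  refine ⟨fun f => e (h f), ?_, ?_⟩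
  · intro f
    obtain ⟨p, hp, e1⟩ := h1 f
    obtain ⟨y, hy⟩ := (hR p).mp hp
    refine ⟨y, ?_⟩
    change e (h f) = _
    rw [e1, map_mul, ← hy, e.apply_symm_apply]
  · intro Γ₀ I k1 k2 k3
    have hP0 : R.P ≤ Γ₀.comap e.toMonoidHom := by
      intro p hp
      obtain ⟨y, hy⟩ := (hR p).mp hp
      change e p ∈ Γ₀
      rw [← hy]
      exact k1 y
    obtain ⟨k4, k5⟩ := h2 (Γ₀.comap e.toMonoidHom) {x | (x.1, e x.2) ∈ I} hP0
      (fun u hu a g hg => by
        change (a, e (u * g)) ∈ I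
        rw [map_mul]
        exact k2 _ hu a _ hg)
      (fun a g hg => by
        change e (g * h a * g⁻¹) ∈ Γ₀
        rw [map_mul, map_mul, map_inv]
        exact k3 a _ hg)
    have hX : ∀ x : G, x ∈ Subgroup.closure
        {x | ∃ a g, (a, g) ∈ {x : MulAut π × G | (x.1, e x.2) ∈ I} ∧ x = g * h a * g⁻¹} ↔
        e x ∈ XI (fun f => e (h f)) I := by
      intro x
      have e1 : (Subgroup.closure
        {x | ∃ a g, (a, g) ∈ {x : MulAut π × G | (x.1, e x.2) ∈ I} ∧
          x = g * h a * g⁻¹}).map e.toMonoidHom = XI (fun f => e (h f)) I := by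
        rw [MonoidHom.map_closure]
        unfold XI
        congr 1
        ext z
        constructor
        · rintro ⟨_, ⟨a, g, hg, rfl⟩, rfl⟩
          refine ⟨a, e g, hg, ?_⟩
          change e (g * h a * g⁻¹) = _
          rw [map_mul, map_mul, map_inv]
        · rintro ⟨a, g, hg, rfl⟩
          refine ⟨e.symm g * h a * (e.symm g)⁻¹, ⟨a, e.symm g, ?_, rfl⟩, ?_⟩
          · change (a, e (e.symm g)) ∈ I
            rw [e.apply_symm_apply]
            exact hg
          · change e (e.symm g * h a * (e.symm g)⁻¹) = _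
            rw [map_mul, map_mul, map_inv, e.apply_symm_apply]
      rw [← e1]
      constructor
      · intro hx
        exact ⟨x, hx, rfl⟩
      · rintro ⟨y, hy, hxy⟩
        have : y = x := e.injective hxy
        rw [← this]
        exact hy
    constructor
    · intro f hf
      have h6 := k4 (e.symm f) (fun p hp => by
        obtain ⟨y, hy⟩ := (hR p).mp hp
        rw [hX]
        have e2 : e (e.symm f * p * (e.symm f)⁻¹ * p⁻¹) = MulAut.conj (f y * y⁻¹) := by
          rw [map_mul, map_mul, map_mul, map_inv, map_inv, e.apply_symm_apply, ← hy, conj_map,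
            map_mul, map_inv]
        rw [e2]
        exact hf y)
      rw [hX, e.apply_symm_apply] at h6
      exact h6
    · intro a g hg
      have e3 : g * e (h a) * g⁻¹ = e (e.symm g * h a * (e.symm g)⁻¹) := by
        rw [map_mul, map_mul, map_inv, e.apply_symm_apply]
      have hg' : g * e (h a) * g⁻¹ ∈ XI (fun f => e (h f)) I := hg
      rw [e3, ← hX] at hg'
      obtain ⟨q, hq⟩ := k5 a (e.symm g) hg'
      refine ⟨q, ?_⟩
      have hq' : (a, e (e.symm g * h a ^ q)) ∈ I := hq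
      rw [map_mul, map_zpow, e.apply_symm_apply] at hq'
      exact hq'

/-- `f` acts on `π/Γ` as an inner automorphism. -/
def InnerMod (Γ : Subgroup π) (f : MulAut π) : Prop :=
  ∃ g : π, ∀ x : π, f x * (g * x * g⁻¹)⁻¹ ∈ Γ

theorem InnerMod.mono {Γ Γ' : Subgroup π} (h : Γ ≤ Γ') {f : MulAut π} (hf : InnerMod Γ f) :
    InnerMod Γ' f := by
  obtain ⟨g, hg⟩ := hf
  exact ⟨g, fun x => h (hg x)⟩

/-- The normal closure of the elements `f(w)`, `f ∈ X`. -/
def NX (w : π) (X : Set (MulAut π)) : Subgroup π := Subgroup.normalClosure {z | ∃ f ∈ X, z = f w}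

/-- **Independence and sections.** -/
theorem main_ind (hI : Ind π) : ∃ w : π,
    (∀ X : Set (MulAut π), (∀ f ∈ X, ∀ y, MulAut.conj y * f ∈ X) →
      (∀ g : MulAut π, g w ∈ NX w X → g ∈ X) ∧
      (∀ g : MulAut π, InnerMod (NX w X) g → g ∈ (MulAut.conj : π →* MulAut π).range)) ∧
    (∀ N H : Subgroup (MulAut π), (∀ y, MulAut.conj y ∈ N) → N ≤ H →
      (∀ f ∈ H, ∀ n ∈ N, f * n * f⁻¹ ∈ N) →
      ∃ Γ : Subgroup π, Γ.Normal ∧ w ∈ Γ ∧ (∀ f ∈ H, ∀ z ∈ Γ, f z ∈ Γ) ∧
        (∀ f : MulAut π, f w ∈ Γ → f ∈ H) ∧ (∀ f ∈ N, InnerMod Γ f) ∧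
        (∀ f : MulAut π, InnerMod Γ f → f ∈ N)) := by
  obtain ⟨h, h1, h2⟩ := hI
  obtain ⟨w, hw⟩ := h1 1
  rw [mul_one] at hw
  refine ⟨w, ?_, ?_⟩
  · intro X hX
    set I : Set (MulAut π × MulAut π) := {x | x.1 = 1 ∧ x.2 ∈ X} with hIdef
    obtain ⟨k1, k2⟩ := h2 (MulAut.conj : π →* MulAut π).range I (fun y => ⟨y, rfl⟩)
      (by
        rintro _ ⟨y, rfl⟩ a g ⟨ha, hg⟩
        exact ⟨ha, hX g hg y⟩)
      (by
        rintro a g ⟨ha, hg⟩
        change a = 1 at ha
        rw [ha, hw, conj_map]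
        exact ⟨_, rfl⟩)
    -- the group `M`
    have hinn : ∀ m ∈ XI h I, m ∈ (MulAut.conj : π →* MulAut π).range := by
      intro m hm
      have : XI h I ≤ (MulAut.conj : π →* MulAut π).range := by
        unfold XI
        rw [Subgroup.closure_le]
        rintro x ⟨a, g, ⟨ha, hg⟩, rfl⟩
        change a = 1 at ha
        rw [ha, hw, conj_map]
        exact ⟨_, rfl⟩
      exact this hm
    have hconj : ∀ y : π, ∀ m ∈ XI h I, MulAut.conj y * m * (MulAut.conj y)⁻¹ ∈ XI h I := by
      intro y m hm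
      unfold XI at hm
      induction hm using Subgroup.closure_induction with
      | mem x hx =>
        obtain ⟨a, g, ⟨ha, hg⟩, rfl⟩ := hx
        apply Subgroup.subset_closure
        exact ⟨a, MulAut.conj y * g, ⟨ha, hX g hg y⟩, by group⟩
      | one => simp
      | mul x x' _ _ hx hx' =>
        have e1 : MulAut.conj y * (x * x') * (MulAut.conj y)⁻¹ =
            (MulAut.conj y * x * (MulAut.conj y)⁻¹) * (MulAut.conj y * x' * (MulAut.conj y)⁻¹) := by
          group
        rw [e1]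
        exact Subgroup.mul_mem _ hx hx'
      | inv x _ hx =>
        have e1 : MulAut.conj y * x⁻¹ * (MulAut.conj y)⁻¹ =
            (MulAut.conj y * x * (MulAut.conj y)⁻¹)⁻¹ := by group
        rw [e1]
        exact Subgroup.inv_mem _ hx
    have hle : ∀ z ∈ NX w X, MulAut.conj z ∈ XI h I := by
      intro z hz
      have hn : ((XI h I).comap (MulAut.conj : π →* MulAut π)).Normal := by
        refine ⟨fun n hn g => ?_⟩
        rw [Subgroup.mem_comap] at hn ⊢
        rw [map_mul, map_mul, map_inv]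
        exact hconj g _ hn
      have : NX w X ≤ (XI h I).comap (MulAut.conj : π →* MulAut π) := by
        apply Subgroup.normalClosure_le_normal
        rintro z ⟨f, hf, rfl⟩
        change MulAut.conj (f w) ∈ XI h I
        rw [← conj_map, ← hw]
        exact Subgroup.subset_closure ⟨1, f, ⟨rfl, hf⟩, rfl⟩
      exact this hz
    constructor
    · intro g hg
      have h3 := hle _ hg
      rw [← conj_map, ← hw] at h3
      obtain ⟨q, -, hq⟩ := k2 1 g h3
      change g * h 1 ^ q ∈ X at hq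
      rw [hw, ← map_zpow] at hq
      have e1 : g * MulAut.conj (w ^ q) = MulAut.conj (g (w ^ q)) * g := by
        rw [← conj_map]; group
      rw [e1] at hq
      have h4 := hX _ hq (g (w ^ q))⁻¹
      rw [map_inv, inv_mul_cancel_left] at h4
      exact h4
    · rintro g ⟨y, hy⟩
      have h3 : (MulAut.conj y)⁻¹ * g ∈ XI h I := by
        apply k1
        intro z
        apply hle
        have e1 : ((MulAut.conj y)⁻¹ * g) z * z⁻¹ = y⁻¹ * (g z * (y * z * y⁻¹)⁻¹) * y := by
          rw [MulAut.mul_apply, MulAut.conj_inv_apply]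
          group
        rw [e1]
        have hn : (NX w X).Normal := Subgroup.normalClosure_normal
        have := hn.conj_mem _ (hy z) y⁻¹
        rwa [inv_inv] at this
      obtain ⟨v, hv⟩ := hinn _ h3
      exact ⟨y * v, by rw [map_mul, hv]; group⟩
  · intro N H hN hNH hnorm
    set I : Set (MulAut π × MulAut π) := {x | x.1 ∈ N ∧ x.2 ∈ H} with hIdef
    have hhN : ∀ a ∈ N, h a ∈ N := by
      intro a ha
      obtain ⟨y, hy⟩ := h1 a
      rw [hy]
      exact N.mul_mem (hN y) ha
    obtain ⟨k1, k2⟩ := h2 H I (fun y => hNH (hN y))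
      (by
        rintro u hu a g ⟨ha, hg⟩
        exact ⟨ha, H.mul_mem hu hg⟩)
      (by
        rintro a g ⟨ha, hg⟩
        exact hNH (hnorm g hg _ (hhN a ha)))
    set M := XI h I with hM
    have hMN : M ≤ N := by
      rw [hM]
      unfold XI
      rw [Subgroup.closure_le]
      rintro x ⟨a, g, ⟨ha, hg⟩, rfl⟩
      exact hnorm g hg _ (hhN a ha)
    have hconj : ∀ u ∈ H, ∀ m ∈ M, u * m * u⁻¹ ∈ M := by
      intro u hu m hm
      rw [hM] at hm
      unfold XI at hm
      induction hm using Subgroup.closure_induction with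
      | mem x hx =>
        obtain ⟨a, g, ⟨ha, hg⟩, rfl⟩ := hx
        apply Subgroup.subset_closure
        exact ⟨a, u * g, ⟨ha, H.mul_mem hu hg⟩, by group⟩
      | one => simp
      | mul x x' _ _ hx hx' =>
        have e1 : u * (x * x') * u⁻¹ = (u * x * u⁻¹) * (u * x' * u⁻¹) := by group
        rw [e1]
        exact Subgroup.mul_mem _ hx hx'
      | inv x _ hx =>
        have e1 : u * x⁻¹ * u⁻¹ = (u * x * u⁻¹)⁻¹ := by group
        rw [e1]
        exact Subgroup.inv_mem _ hx
    have hmem : ∀ a ∈ N, h a ∈ M := by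
      intro a ha
      apply Subgroup.subset_closure
      exact ⟨a, 1, ⟨ha, H.one_mem⟩, by group⟩
    refine ⟨M.comap (MulAut.conj : π →* MulAut π), ?_, ?_, ?_, ?_, ?_, ?_⟩
    · refine ⟨fun n hn g => ?_⟩
      rw [Subgroup.mem_comap] at hn ⊢
      rw [map_mul, map_mul, map_inv]
      exact hconj _ (hNH (hN g)) _ hn
    · change MulAut.conj w ∈ M
      rw [← hw]
      exact hmem 1 N.one_mem
    · intro f hf z hz
      change MulAut.conj (f z) ∈ M
      rw [← conj_map]
      exact hconj f hf _ hz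
    · intro f hf
      have hf' : MulAut.conj (f w) ∈ M := hf
      rw [← conj_map, ← hw] at hf'
      obtain ⟨q, -, hq⟩ := k2 1 f hf'
      change f * h 1 ^ q ∈ H at hq
      have h3 : h 1 ∈ H := hNH (hhN 1 N.one_mem)
      exact (Subgroup.mul_mem_cancel_right H (H.zpow_mem h3 q)).mp hq
    · intro a ha
      obtain ⟨y, hy⟩ := h1 a
      refine ⟨y⁻¹, fun x => ?_⟩
      change MulAut.conj (a x * (y⁻¹ * x * y⁻¹⁻¹)⁻¹) ∈ M
      have e1 : a = MulAut.conj y⁻¹ * h a := by rw [hy, map_inv]; group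
      have e2 : a x = y⁻¹ * (h a x) * y := by
        conv_lhs => rw [e1]
        rw [MulAut.mul_apply, MulAut.conj_apply, inv_inv]
      have e3 : a x * (y⁻¹ * x * y⁻¹⁻¹)⁻¹ = y⁻¹ * (h a x * x⁻¹) * y⁻¹⁻¹ := by
        rw [e2]; group
      rw [e3, conj_conj]
      apply hconj _ (hNH (hN _))
      rw [map_mul, ← conj_map, map_inv]
      have e4 : h a * MulAut.conj x * (h a)⁻¹ * (MulAut.conj x)⁻¹ =
          h a * (MulAut.conj x * (h a)⁻¹ * (MulAut.conj x)⁻¹) := by group
      rw [e4]
      exact M.mul_mem (hmem a ha) (hconj _ (hNH (hN x)) _ (M.inv_mem (hmem a ha)))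
    · rintro g ⟨y, hy⟩
      have h3 : (MulAut.conj y)⁻¹ * g ∈ M := by
        apply k1
        intro z
        have e1 : ((MulAut.conj y)⁻¹ * g) z * z⁻¹ = y⁻¹ * (g z * (y * z * y⁻¹)⁻¹) * y⁻¹⁻¹ := by
          rw [MulAut.mul_apply, MulAut.conj_inv_apply]
          group
        rw [e1, conj_conj]
        exact hconj _ (hNH (hN _)) _ (hy z)
      have e2 : g = MulAut.conj y * ((MulAut.conj y)⁻¹ * g) := by group
      rw [e2]
      exact N.mul_mem (hN y) (hMN h3)

end Run7.h41.IND
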