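import Pool.Agent.Run7.h41.NF.Ind3

set_option autoImplicit false

/-!
# Finitely many relators
-/

namespace Run7.h41.IND

variable {π : Type} [Group π]

/-- The automorphisms acting on `π/Γ` as inner automorphisms, for a normal subgroup `Γ`. -/
def kerSub (Γ : Subgroup π) (hΓ : Γ.Normal) : Subgroup (MulAut π) where
  carrier := {f | InnerMod Γ f}
  one_mem' := ⟨1, fun x => by simpa using Γ.one_mem⟩
  mul_mem' := by
    rintro f f' ⟨g, hg⟩ ⟨g', hg'⟩
    refine ⟨g * g', fun x => ?_⟩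
    have hinv : ∀ r ∈ Γ, f r ∈ Γ := by
      intro r hr
      have h1 := hg r
      have h2 : g * r * g⁻¹ ∈ Γ := hΓ.conj_mem _ hr g
      have e : f r = f r * (g * r * g⁻¹)⁻¹ * (g * r * g⁻¹) := by group
      rw [e]
      exact Γ.mul_mem h1 h2
    have h1 := hinv _ (hg' x)
    have h2 := hg (g' * x * g'⁻¹)
    have e : (f * f') x * (g * g' * x * (g * g')⁻¹)⁻¹ =
        f (f' x * (g' * x * g'⁻¹)⁻¹) * (f (g' * x * g'⁻¹) * (g * (g' * x * g'⁻¹) * g⁻¹)⁻¹) := by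
      rw [MulAut.mul_apply, map_mul f (f' x), map_inv]
      group
    rw [e]
    exact Γ.mul_mem h1 h2
  inv_mem' := by
    rintro f ⟨g, hg⟩
    refine ⟨g⁻¹, fun x => ?_⟩
    have h1 := hg (f⁻¹ x)
    rw [MulAut.apply_inv_self] at h1
    have h2 := hΓ.conj_mem _ (Γ.inv_mem h1) g⁻¹
    have h3 := hΓ.conj_mem _ h2 (g⁻¹ * x * g⁻¹⁻¹)
    have e : f⁻¹ x * (g⁻¹ * x * g⁻¹⁻¹)⁻¹ =
        g⁻¹ * (x * (g * f⁻¹ x * g⁻¹)⁻¹)⁻¹ * g⁻¹⁻¹ := by group
    rw [e]
    exact h2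

theorem mem_kerSub {Γ : Subgroup π} (hΓ : Γ.Normal) {f : MulAut π} :
    f ∈ kerSub Γ hΓ ↔ InnerMod Γ f := Iff.rfl

theorem InnerMod.map_mem {Γ : Subgroup π} (hΓ : Γ.Normal) {f : MulAut π} (hf : InnerMod Γ f)
    {r : π} (hr : r ∈ Γ) : f r ∈ Γ := by
  obtain ⟨g, hg⟩ := hf
  have h1 := hg r
  have h2 : g * r * g⁻¹ ∈ Γ := hΓ.conj_mem _ hr g
  have e : f r = f r * (g * r * g⁻¹)⁻¹ * (g * r * g⁻¹) := by group
  rw [e]
  exact Γ.mul_mem h1 h2

/-- An automorphism which fixes generators modulo a normal subgroup fixes all elements modulo it. -/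
theorem fix_mod {R : Subgroup π} (hR : R.Normal) {X : Set π} (hX : Subgroup.closure X = ⊤)
    {f : MulAut π} (h : ∀ x ∈ X, f x * x⁻¹ ∈ R) (x : π) : f x * x⁻¹ ∈ R := by
  have h1 : (QuotientGroup.mk' R).comp f.toMonoidHom = QuotientGroup.mk' R := by
    apply MonoidHom.eq_of_eqOn_dense hX
    intro y hy
    change ((f y : π) : π ⧸ R) = (y : π ⧸ R)
    rw [QuotientGroup.eq]
    have h2 := hR.conj_mem _ (R.inv_mem (h y hy)) y⁻¹
    have e : y⁻¹ * (f y * y⁻¹)⁻¹ * y⁻¹⁻¹ = (f y)⁻¹ * y := by group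
    rw [e] at h2
    exact h2
  have h2 : ((f x : π) : π ⧸ R) = (x : π ⧸ R) := DFunLike.congr_fun h1 x
  rw [QuotientGroup.eq] at h2
  have h3 := hR.conj_mem _ (R.inv_mem h2) x
  have e : x * ((f x)⁻¹ * x)⁻¹ * x⁻¹ = f x * x⁻¹ * (x * 1 * x⁻¹) := by group
  rw [e] at h3
  simpa using h3

/-- **Finitely many relators suffice.** -/
theorem finite_relators {X : Set π} (hXf : X.Finite) (hX : Subgroup.closure X = ⊤)
    (N H : Subgroup (MulAut π)) (hN : ∀ y, MulAut.conj y ∈ N) (hNH : N ≤ H) (hfg : N.FG)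
    (hfi : (N.subgroupOf H).FiniteIndex) (Γ : Subgroup π) (hΓ : Γ.Normal)
    (hHΓ : ∀ f ∈ H, ∀ z ∈ Γ, f z ∈ Γ) (hNΓ : ∀ f ∈ N, InnerMod Γ f) (w : π) (hw : w ∈ Γ) :
    ∃ E : Set π, E.Finite ∧ w ∈ E ∧ (∀ z ∈ E, z ∈ Γ) ∧
      (∀ f ∈ H, ∀ z ∈ Subgroup.normalClosure E, f z ∈ Subgroup.normalClosure E) ∧
      ∀ f ∈ N, InnerMod (Subgroup.normalClosure E) f := by
  classical
  obtain ⟨S, hS⟩ := hfg
  have hSN : ∀ k ∈ S, k ∈ N := fun k hk => by
    rw [← hS]; exact Subgroup.subset_closure hk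
  have hex : ∀ k : MulAut π, ∃ g : π, k ∈ S → ∀ x : π, k x * (g * x * g⁻¹)⁻¹ ∈ Γ := by
    intro k
    by_cases hk : k ∈ S
    · obtain ⟨g, hg⟩ := hNΓ k (hSN k hk)
      exact ⟨g, fun _ => hg⟩
    · exact ⟨1, fun h => absurd h hk⟩
  choose g hg using hex
  -- the modified generators
  set b : MulAut π → MulAut π := fun k => (MulAut.conj (g k))⁻¹ * k with hb
  set E₀ : Set π := {w} ∪ {z | ∃ k ∈ S, ∃ x ∈ X, z = b k x * x⁻¹} with hE₀
  have hE₀f : E₀.Finite := by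
    refine (Set.finite_singleton w).union ?_
    have : {z | ∃ k ∈ S, ∃ x ∈ X, z = b k x * x⁻¹} =
        (fun p : MulAut π × π => b p.1 p.2 * p.2⁻¹) '' ((S : Set (MulAut π)) ×ˢ X) := by
      ext z
      constructor
      · rintro ⟨k, hk, x, hx, rfl⟩
        exact ⟨(k, x), ⟨hk, hx⟩, rfl⟩
      · rintro ⟨⟨k, x⟩, ⟨hk, hx⟩, rfl⟩
        exact ⟨k, hk, x, hx, rfl⟩
    rw [this]
    exact (S.finite_toSet.prod hXf).image _
  set R₀ := Subgroup.normalClosure E₀ with hR₀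
  have hR₀n : R₀.Normal := Subgroup.normalClosure_normal
  have hbΓ : ∀ k ∈ S, ∀ x, b k x * x⁻¹ ∈ Γ := by
    intro k hk x
    have h1 := hΓ.conj_mem _ (hg k hk x) (g k)⁻¹
    have e : b k x * x⁻¹ = (g k)⁻¹ * (k x * (g k * x * (g k)⁻¹)⁻¹) * (g k)⁻¹⁻¹ := by
      rw [hb]
      change ((MulAut.conj (g k))⁻¹ * k) x * x⁻¹ = _
      rw [MulAut.mul_apply, MulAut.conj_inv_apply]
      group
    rw [e]
    exact h1
  have hE₀Γ : ∀ z ∈ E₀, z ∈ Γ := by
    rintro z (rfl | ⟨k, hk, x, hx, rfl⟩)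
    · exact hw
    · exact hbΓ k hk x
  -- `N` acts on `π/R₀` by inner automorphisms
  have hNR₀ : ∀ f ∈ N, InnerMod R₀ f := by
    have : N ≤ kerSub R₀ hR₀n := by
      rw [← hS, Subgroup.closure_le]
      intro k hk
      refine ⟨g k, fun x => ?_⟩
      have h1 := fix_mod hR₀n hX (f := b k) (fun x hx =>
        Subgroup.subset_normalClosure (Or.inr ⟨k, hk, x, hx, rfl⟩)) x
      have h2 := hR₀n.conj_mem _ h1 (g k)
      have e : k x * (g k * x * (g k)⁻¹)⁻¹ = g k * (b k x * x⁻¹) * (g k)⁻¹ := by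
        rw [hb]
        change _ = g k * (((MulAut.conj (g k))⁻¹ * k) x * x⁻¹) * (g k)⁻¹
        rw [MulAut.mul_apply, MulAut.conj_inv_apply]
        group
      rw [e]
      exact h2
    exact fun f hf => this hf
  -- coset representatives
  have hfin : Finite (H ⧸ N.subgroupOf H) := inferInstance
  set T : Set (MulAut π) := {1} ∪ Set.range (fun q : H ⧸ N.subgroupOf H => (q.out : MulAut π))
    with hT
  have hTf : T.Finite := (Set.finite_singleton _).union (Set.finite_range _)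
  have hTH : ∀ t ∈ T, t ∈ H := by
    rintro t (rfl | ⟨q, rfl⟩)
    · exact H.one_mem
    · exact q.out.2
  set E : Set π := {z | ∃ t ∈ T, ∃ e ∈ E₀, z = t e} with hE
  have hEf : E.Finite := by
    have : E = (fun p : MulAut π × π => p.1 p.2) '' (T ×ˢ E₀) := by
      ext z
      constructor
      · rintro ⟨k, hk, x, hx, rfl⟩
        exact ⟨(k, x), ⟨hk, hx⟩, rfl⟩
      · rintro ⟨⟨k, x⟩, ⟨hk, hx⟩, rfl⟩
        exact ⟨k, hk, x, hx, rfl⟩
    rw [this]
    exact (hTf.prod hE₀f).image _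
  set R := Subgroup.normalClosure E with hR
  have hRn : R.Normal := Subgroup.normalClosure_normal
  have hE₀E : E₀ ⊆ E := fun z hz => ⟨1, Or.inl rfl, z, hz, rfl⟩
  have hR₀R : R₀ ≤ R := Subgroup.normalClosure_mono hE₀E
  have htR : ∀ t ∈ T, ∀ z ∈ R₀, t z ∈ R := by
    intro t ht z hz
    have hn : (R.comap (t : π ≃* π).toMonoidHom).Normal := hRn.comap _
    have : R₀ ≤ R.comap (t : π ≃* π).toMonoidHom := by
      apply Subgroup.normalClosure_le_normal
      intro e he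
      exact Subgroup.subset_normalClosure ⟨t, ht, e, he, rfl⟩
    exact this hz
  refine ⟨E, hEf, hE₀E (Or.inl rfl), ?_, ?_, ?_⟩
  · rintro z ⟨t, ht, e, he, rfl⟩
    exact hHΓ t (hTH t ht) e (hE₀Γ e he)
  · intro f hf z hz
    have hn : (R.comap (f : π ≃* π).toMonoidHom).Normal := hRn.comap _
    have : R ≤ R.comap (f : π ≃* π).toMonoidHom := by
      apply Subgroup.normalClosure_le_normal
      rintro z ⟨t, ht, e, he, rfl⟩
      change f (t e) ∈ R
      -- `f t = t' n`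
      set u : H := ⟨f * t, H.mul_mem hf (hTH t ht)⟩ with hu
      set q : H ⧸ N.subgroupOf H := (u : H ⧸ N.subgroupOf H) with hq
      have h1 : (q.out)⁻¹ * u ∈ N.subgroupOf H := by
        rw [← QuotientGroup.eq]
        exact QuotientGroup.out_eq' q
      have h2 : ((q.out : H) : MulAut π)⁻¹ * (f * t) ∈ N := h1
      have h3 : (((q.out : H) : MulAut π)⁻¹ * (f * t)) e ∈ R₀ :=
        (hNR₀ _ h2).map_mem hR₀n (Subgroup.subset_normalClosure he)
      have h4 := htR ((q.out : H) : MulAut π) (Or.inr ⟨q, rfl⟩) _ h3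
      have e1 : ((q.out : H) : MulAut π) ((((q.out : H) : MulAut π)⁻¹ * (f * t)) e) = f (t e) := by
        rw [← MulAut.mul_apply, mul_inv_cancel_left, MulAut.mul_apply]
      rw [e1] at h4
      exact h4
    exact this hz
  · intro f hf
    exact (hNR₀ f hf).mono hR₀R

end Run7.h41.IND
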