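import Pool.Agent.Run7.h41.NF.Ind4
import Pool.Agent.Run7.h41.NF.All
import Pool.Agent.Helper156.OF.Nielsen

set_option autoImplicit false

/-!
# Free groups
-/

namespace Run7.h41.IND

open Run7.h41.NF Run7.h955

theorem countable_aut {π : Type} [Group π] [Countable π] {X : Set π} (hXf : X.Finite)
    (hX : Subgroup.closure X = ⊤) : Countable (MulAut π) := by
  have hf : Finite X := hXf
  have : Function.Injective (fun f : MulAut π => (fun x : X => f x)) := by
    intro f f' h
    have h1 : f.toMonoidHom = f'.toMonoidHom := by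
      apply MonoidHom.eq_of_eqOn_dense hX
      intro x hx
      exact congrFun h ⟨x, hx⟩
    ext x
    exact DFunLike.congr_fun h1 x
  exact this.countable

theorem free_gens (r : ℕ) : (Set.range (FreeGroup.of : Fin r → FreeGroup (Fin r))).Finite ∧
    Subgroup.closure (Set.range (FreeGroup.of : Fin r → FreeGroup (Fin r))) = ⊤ :=
  ⟨Set.finite_range _, FreeGroup.closure_range_of _⟩

theorem ind_free (r : ℕ) (hr : 2 ≤ r) : Ind (FreeGroup (Fin r)) := by
  obtain ⟨n, rfl⟩ : ∃ n, r = n + 2 := ⟨r - 2, by omega⟩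
  obtain ⟨V, hV, R, hR⟩ := exists_rot
    ⟨p_WAL, p_EVB, p_AXI, p_LIP, p_LEV, p_SHI, p_STA, p_GRC, p_FIX, p_CEN, p_KAP⟩ n ⊤ le_top
  have hc : Countable (MulAut (FreeGroup (Fin (n + 2)))) :=
    countable_aut (free_gens _).1 (free_gens _).2
  exact ind_of_rot R Subgroup.topEquiv (fun g => by rw [hR]; rfl)

theorem aut_free_fg (r : ℕ) : Group.FG (MulAut (FreeGroup (Fin r))) := by
  have h1 : Subgroup.closure (Pool.Agent.Helper156.OF.genSet (Fin r)) = ⊤ := by
    rw [eq_top_iff]
    intro f _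
    exact Pool.Agent.Helper156.OF.nielsen_generation f
  have h2 : (Pool.Agent.Helper156.OF.genSet (Fin r)).Finite := by
    have e : Pool.Agent.Helper156.OF.genSet (Fin r) ⊆
        Set.range (Pool.Agent.Helper156.OF.toAut (α := Fin r)) ∪
        Set.range (fun p : Pool.Agent.Helper156.OF.Lt (Fin r) × Pool.Agent.Helper156.OF.Lt (Fin r) =>
          Pool.Agent.Helper156.OF.eAut p.1 p.2) := by
      intro f hf
      rcases hf with ⟨σ, hσ⟩ | ⟨a, b, -, rfl⟩
      · exact Or.inl ⟨σ, hσ⟩
      · exact Or.inr ⟨(a, b), rfl⟩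
    exact ((Set.finite_range _).union (Set.finite_range _)).subset e
  exact Group.fg_iff.mpr ⟨_, h1, h2⟩

end Run7.h41.IND
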