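import Pool.Agent.Run7.h41.NF.Ind4
import Pool.Agent.Run7.h955.I

set_option autoImplicit false

/-!
# Surface groups
-/

namespace Run7.h41.IND

open Run7.h955

/-- Another standard presentation of the surface group. -/
abbrev SurfaceGroup (g : ℕ) : Type := PresentedGroup
  ({(List.ofFn (fun i : Fin g =>
      FreeGroup.of (Sum.inl i : Fin g ⊕ Fin g) *
      FreeGroup.of (Sum.inr i : Fin g ⊕ Fin g) *
      (FreeGroup.of (Sum.inl i : Fin g ⊕ Fin g))⁻¹ *
      (FreeGroup.of (Sum.inr i : Fin g ⊕ Fin g))⁻¹)).prod} :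
    Set (FreeGroup (Fin g ⊕ Fin g)))

theorem equiv_SG (n : ℕ) : Nonempty (SG (n + 2) ≃* SurfaceGroup (n + 2)) := by
  let E : Fin (n + 2) × Bool ≃ Fin (n + 2) ⊕ Fin (n + 2) :=
    { toFun := fun x => if x.2 then Sum.inr x.1 else Sum.inl x.1
      invFun := fun y => Sum.elim (fun i => (i, false)) (fun i => (i, true)) y
      left_inv := by rintro ⟨i, b⟩; cases b <;> rfl
      right_inv := by rintro (i | i) <;> rfl }
  have hrel : (FreeGroup.freeGroupCongr E '' ({Run7.h955.rel (n + 2)} :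
      Set (FreeGroup (Fin (n + 2) × Bool)))) =
      ({(List.ofFn (fun i : Fin (n + 2) =>
      FreeGroup.of (Sum.inl i : Fin (n + 2) ⊕ Fin (n + 2)) *
      FreeGroup.of (Sum.inr i : Fin (n + 2) ⊕ Fin (n + 2)) *
      (FreeGroup.of (Sum.inl i : Fin (n + 2) ⊕ Fin (n + 2)))⁻¹ *
      (FreeGroup.of (Sum.inr i : Fin (n + 2) ⊕ Fin (n + 2)))⁻¹)).prod} :
    Set (FreeGroup (Fin (n + 2) ⊕ Fin (n + 2)))) := by
    rw [Set.image_singleton]
    congr 1
    unfold Run7.h955.rel
    rw [map_list_prod, List.map_ofFn]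
    congr 2
  have e := PresentedGroup.equivPresentedGroup
    ({Run7.h955.rel (n + 2)} : Set (FreeGroup (Fin (n + 2) × Bool))) E
  rw [hrel] at e
  exact ⟨e⟩

theorem congr_conj {π σ : Type} [Group π] [Group σ] (e : π ≃* σ) (y : π) :
    MulAut.congr e (MulAut.conj y) = MulAut.conj (e y) := by
  ext z
  change e (y * e.symm z * y⁻¹) = e y * z * (e y)⁻¹
  rw [map_mul, map_mul, map_inv, e.apply_symm_apply]

theorem ind_surface {G : Type} [Group G] (g : ℕ) (hg : 2 ≤ g) (e : G ≃* SurfaceGroup g) : Ind G := by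
  obtain ⟨n, rfl⟩ : ∃ n, g = n + 2 := ⟨g - 2, by omega⟩
  obtain ⟨e0⟩ := equiv_SG n
  obtain ⟨V, hV, R, hR⟩ := exists_rotSys n
  have hc : Countable (MulAut G) := ((MulAut.congr (e0.trans e.symm)).toEquiv.countable_iff).mp
    (Run7.h955.countable_aut (n + 2))
  refine ind_of_rot R (MulAut.congr (e0.trans e.symm)) (fun f => ?_)
  rw [hR]
  constructor
  · rintro ⟨y, rfl⟩
    exact ⟨_, (congr_conj _ y).symm⟩
  · rintro ⟨z, hz⟩
    refine ⟨(e0.trans e.symm).symm z, ?_⟩
    apply (MulAut.congr (e0.trans e.symm)).injective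
    rw [congr_conj, MulEquiv.apply_symm_apply]
    exact hz

theorem surface_gens {G : Type} [Group G] (g : ℕ) (e : G ≃* SurfaceGroup g) :
    ∃ X : Set G, X.Finite ∧ Subgroup.closure X = ⊤ := by
  have h1 : Group.FG (SurfaceGroup g) := by
    have : Function.Surjective (PresentedGroup.mk ({(List.ofFn (fun i : Fin g =>
      FreeGroup.of (Sum.inl i : Fin g ⊕ Fin g) *
      FreeGroup.of (Sum.inr i : Fin g ⊕ Fin g) *
      (FreeGroup.of (Sum.inl i : Fin g ⊕ Fin g))⁻¹ *
      (FreeGroup.of (Sum.inr i : Fin g ⊕ Fin g))⁻¹)).prod} :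
    Set (FreeGroup (Fin g ⊕ Fin g)))) := PresentedGroup.mk_surjective _
    exact Group.fg_of_surjective this
  have h2 : Group.FG G := Group.fg_of_surjective (f := e.symm.toMonoidHom) e.symm.surjective
  obtain ⟨S, hS, hf⟩ := Group.fg_iff.mp h2
  exact ⟨S, hf, hS⟩

theorem surface_fp {G : Type} [Group G] (g : ℕ) (e : G ≃* SurfaceGroup g) :
    Group.IsFinitelyPresented G := by
  have h1 : Group.IsFinitelyPresented (SurfaceGroup g) := inferInstance
  exact Group.IsFinitelyPresented.equiv e.symm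

end Run7.h41.IND
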